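import Pool.Agent.N782.GN.LTe

/-!
# Primes `l² + m²` with a periodic condition for `(l, m)`, for almost all `l`

After the starting files `N782/GN/LTc`, `LTd`, `LTe` (project GN, helper782), where the condition is the one of the curve
`y² = x³ - D² x`; here the condition is any predicate which is periodic modulo `q`, even in `m`, and which implies that
`l² + m²` is coprime to `q`.
-/

set_option autoImplicit false

namespace Pool.Agent.J6H22.LT

open Finset Filter Topology Pool.Agent.N782.GN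
open Pool.Agent.N782.GN.LT (cop_of_norm int_diff)

/-- admissible conditions -/
structure Adm (q : ℕ) (W : ℤ → ℤ → Prop) : Prop where
  one_le : 1 ≤ q
  per : ∀ a m a' m' : ℤ, (q : ℤ) ∣ a - a' → (q : ℤ) ∣ m - m' → W a m → W a' m'
  neg : ∀ a m : ℤ, W a m → W a (-m)
  cop : ∀ a m : ℤ, W a m → IsCoprime (a ^ 2 + m ^ 2) (q : ℤ)

variable {q : ℕ} {W : ℤ → ℤ → Prop}

theorem Adm.congr (hW : Adm q W) {a m a' m' : ℤ} (ha : (q : ℤ) ∣ a - a') (hm : (q : ℤ) ∣ m - m') :
    W a m ↔ W a' m' := by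
  constructor
  · exact hW.per a m a' m' ha hm
  · refine hW.per a' m' a m ?_ ?_
    · rw [← neg_sub]
      exact (dvd_neg).2 ha
    · rw [← neg_sub]
      exact (dvd_neg).2 hm

theorem Adm.neg_iff (hW : Adm q W) {a m : ℤ} : W a (-m) ↔ W a m := by
  constructor
  · intro h
    have := hW.neg _ _ h
    rwa [neg_neg] at this
  · exact hW.neg a m

open Classical in
/-- the classes modulo `q` -/
noncomputable def cl (q : ℕ) (W : ℤ → ℤ → Prop) (a : ℤ) : Finset ℕ := (range q).filter (fun m : ℕ => W a m)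

open Classical in
/-- half of the sum of `Λ(l² + m²)` over `|m| ≤ M` with the condition, `a = σ l` -/
noncomputable def fD (W : ℤ → ℤ → Prop) (σ : ℤ) (l : ℤ) (M : ℝ) : ℝ :=
  1 / 2 * ∑ m ∈ (Icc ⌈-M⌉ ⌊M⌋).filter (fun m : ℤ => W (σ * l) m), ArithmeticFunction.vonMangoldt (l ^ 2 + m ^ 2).natAbs

/-- the density -/
noncomputable def sD (q : ℕ) (W : ℤ → ℤ → Prop) (σ : ℤ) (l : ℤ) : ℝ :=
  ((cl q W (σ * l)).card : ℝ) / (q : ℝ) * (gq q l * SS l)

/-- the sum over the classes -/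
theorem fD_eq (hW : Adm q W) (σ l : ℤ) (M : ℝ) :
    fD W σ l M = 1 / 2 * ∑ m0 ∈ cl q W (σ * l), ∑ m ∈ (Icc ⌈-M⌉ ⌊M⌋).filter (fun m => (q : ℤ) ∣ m - m0),
      ArithmeticFunction.vonMangoldt (l ^ 2 + m ^ 2).natAbs := by
  classical
  unfold fD
  congr 1
  have hq : (0 : ℤ) < (q : ℤ) := by
    have := hW.one_le
    omega
  rw [sum_filter]
  simp_rw [sum_filter]
  rw [sum_comm]
  refine sum_congr rfl fun m _ => ?_
  rw [← sum_filter]
  set F := ArithmeticFunction.vonMangoldt (l ^ 2 + m ^ 2).natAbs with hF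
  have h1 : (m % (q : ℤ)).toNat < q := by
    have h2 := Int.emod_nonneg m hq.ne'
    have h3 := Int.emod_lt_of_pos m hq
    omega
  have h0 : (((m % (q : ℤ)).toNat : ℕ) : ℤ) = m % (q : ℤ) :=
    Int.toNat_of_nonneg (Int.emod_nonneg m hq.ne')
  have hdv : (q : ℤ) ∣ m - (((m % (q : ℤ)).toNat : ℕ) : ℤ) := by
    rw [h0]
    exact Int.dvd_self_sub_emod
  have h4 : (cl q W (σ * l)).filter (fun m0 : ℕ => (q : ℤ) ∣ m - m0) =
      if W (σ * l) m then {(m % (q : ℤ)).toNat} else ∅ := by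
    ext m0
    unfold cl
    rw [mem_filter, mem_filter, mem_range]
    constructor
    · rintro ⟨⟨h5, h6⟩, h7⟩
      have h8 : W (σ * l) m := (hW.congr (by simp) h7).2 h6
      rw [if_pos h8, mem_singleton]
      have h9 : m % (q : ℤ) = (m0 : ℤ) % (q : ℤ) :=
        Int.emod_eq_emod_iff_emod_sub_eq_zero.2 (Int.emod_eq_zero_of_dvd h7)
      rw [h9, Int.emod_eq_of_lt (by omega) (by exact_mod_cast h5)]
      simp
    · intro h5
      split_ifs at h5 with h6
      · rw [mem_singleton] at h5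
        subst h5
        exact ⟨⟨h1, (hW.congr (by simp) hdv).1 h6⟩, hdv⟩
      · simp at h5
  rw [h4]
  split_ifs
  · rw [sum_singleton]
  · rw [sum_empty]

theorem avgD (hW : Adm q W) (σ : ℤ) (hσ : σ ^ 2 = 1) : Avg (fun L => Icc 1 ⌊L⌋) (fD W σ) (sD q W σ) where
  mono := fun l y z h => by
    classical
    unfold fD
    refine mul_le_mul_of_nonneg_left ?_ (by norm_num)
    apply sum_le_sum_of_subset_of_nonneg
    · apply filter_subset_filter
      exact Icc_subset_Icc (Int.ceil_le_ceil (by linarith)) (Int.floor_le_floor h)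
    · intro m _ _
      exact ArithmeticFunction.vonMangoldt_nonneg
  s0 := fun L l hl => by
    rw [mem_box] at hl
    have h1 := (c_ssl l (by omega)).2
    unfold sD
    have h2 : 0 ≤ gq q l := by
      unfold gq
      refine div_nonneg (by positivity) (prod_nonneg fun p hp => ?_)
      rw [mem_filter] at hp
      have hp1 := Nat.prime_of_mem_primeFactors hp.1
      have h3 : 3 ≤ p := by
        have := hp1.two_le
        have := hp.2.1
        omega
      have h3' : (3 : ℝ) ≤ p := by exact_mod_cast h3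
      have h4 : ((ZMod.χ₄ (p : ZMod 4) : ℤ) : ℝ) ≤ 1 := by
        have : (ZMod.χ₄ (p : ZMod 4) : ℤ) ≤ 1 := by
          rw [ZMod.χ₄_nat_eq_if_mod_four]
          split_ifs <;> norm_num
        exact_mod_cast this
      rw [sub_nonneg, div_le_one (by linarith)]
      linarith
    positivity
  triv := ⟨9, by norm_num, fun L M hM3 hLM l hl => by
    classical
    rw [mem_box] at hl
    have h1 := f1_triv l M hM3 hl.1 (hl.2.trans hLM)
    have hM : 1 ≤ M := by linarith
    have h2 := two_sided hM (fun m => ArithmeticFunction.vonMangoldt (l ^ 2 + m ^ 2).natAbs) (fun m => by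
      simp only [neg_sq])
    have h3 := vM_sq (L := M) (l := l) (by rw [mem_box]; exact ⟨hl.1, hl.2.trans hLM⟩)
    rw [abs_of_nonneg ArithmeticFunction.vonMangoldt_nonneg] at h3
    have hlog : 0 ≤ Real.log M := Real.log_nonneg hM
    unfold fD
    have h4 : ∑ m ∈ (Icc ⌈-M⌉ ⌊M⌋).filter (fun m : ℤ => W (σ * l) m),
        ArithmeticFunction.vonMangoldt (l ^ 2 + m ^ 2).natAbs ≤
        ∑ m ∈ Icc ⌈-M⌉ ⌊M⌋, ArithmeticFunction.vonMangoldt (l ^ 2 + m ^ 2).natAbs :=
      sum_le_sum_of_subset_of_nonneg (filter_subset _ _) fun _ _ _ => ArithmeticFunction.vonMangoldt_nonneg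
    have h5 : 2 * Real.log M ≤ 2 * (M * Real.log M) := by nlinarith
    unfold f1 at h1
    nlinarith⟩
  avg := fun ε A hε => by
    classical
    have hq1 : 1 ≤ q := hW.one_le
    obtain ⟨C, hC, h⟩ := c_mainx ε A q hε hq1
    refine ⟨C * (q : ℝ) ^ 2, by positivity, fun M L hM3 h1 h2 => ?_⟩
    have hM1 : 1 < M := by linarith
    have hε6 : ε ≤ 1 / 6 := by
      have h2 : M ^ (2 / 3 + ε) ≤ M ^ (1 - ε) := h1.trans h2
      have h3 := (Real.rpow_le_rpow_left_iff hM1).1 h2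
      linarith
    have hP : Pr ε M L := ⟨hε, hε6, hM3, h1, h2⟩
    have hL := hP.hL
    have hlog := hP.hlog
    have hX : 0 ≤ C * L * M / (Real.log M) ^ A := by positivity
    have hq : (0 : ℤ) < (q : ℤ) := by
      have := hW.one_le
      omega
    have hqr : (0 : ℝ) < (q : ℝ) := by exact_mod_cast hq
    -- split `l` into classes
    have e1 : ∑ l ∈ Icc 1 ⌊L⌋, |fD W σ l M - M * sD q W σ l| =
        ∑ l0 ∈ range q, ∑ l ∈ (Icc 1 ⌊L⌋).filter (fun l => (q : ℤ) ∣ l - l0), |fD W σ l M - M * sD q W σ l| := by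
      simp_rw [sum_filter]
      rw [sum_comm]
      refine sum_congr rfl fun l _ => ?_
      have h0 : (((l % (q : ℤ)).toNat : ℕ) : ℤ) = l % (q : ℤ) := Int.toNat_of_nonneg (Int.emod_nonneg l hq.ne')
      have h3 := Int.emod_lt_of_pos l hq
      rw [sum_eq_single (l % (q : ℤ)).toNat]
      · rw [if_pos]
        rw [h0]
        exact Int.dvd_self_sub_emod
      · intro l0 hl0 hne
        rw [mem_range] at hl0
        rw [if_neg]
        intro hd
        apply hne
        have h9 : l % (q : ℤ) = (l0 : ℤ) % (q : ℤ) :=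
          Int.emod_eq_emod_iff_emod_sub_eq_zero.2 (Int.emod_eq_zero_of_dvd hd)
        rw [h9, Int.emod_eq_of_lt (by omega) (by exact_mod_cast hl0)]
        simp
      · intro hn
        exfalso
        apply hn
        rw [mem_range]
        omega
    rw [e1]
    have e2 : ∀ l0 ∈ range q, ∑ l ∈ (Icc 1 ⌊L⌋).filter (fun l => (q : ℤ) ∣ l - l0), |fD W σ l M - M * sD q W σ l| ≤
        (q : ℝ) * (C * L * M / (Real.log M) ^ A) := by
      intro l0 _
      have e3 : ∀ l ∈ (Icc 1 ⌊L⌋).filter (fun l => (q : ℤ) ∣ l - l0), |fD W σ l M - M * sD q W σ l| ≤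
          ∑ m0 ∈ cl q W (σ * l0), |∑ m ∈ (Icc ⌈-M⌉ ⌊M⌋).filter (fun m => (q : ℤ) ∣ m - m0),
            ArithmeticFunction.vonMangoldt (l ^ 2 + m ^ 2).natAbs - 2 * M / q * (gq q l * SS l)| := by
        intro l hl
        rw [mem_filter] at hl
        have hcl : cl q W (σ * l) = cl q W (σ * l0) := by
          unfold cl
          apply filter_congr
          intro m _
          apply hW.congr
          · rw [← mul_sub]
            exact Dvd.dvd.mul_left hl.2 σ
          · simp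
        have e4 : fD W σ l M - M * sD q W σ l = 1 / 2 * ∑ m0 ∈ cl q W (σ * l0),
            (∑ m ∈ (Icc ⌈-M⌉ ⌊M⌋).filter (fun m => (q : ℤ) ∣ m - m0),
            ArithmeticFunction.vonMangoldt (l ^ 2 + m ^ 2).natAbs - 2 * M / q * (gq q l * SS l)) := by
          rw [fD_eq hW, sum_sub_distrib, sum_const, nsmul_eq_mul, hcl]
          unfold sD
          rw [hcl]
          ring
        rw [e4, abs_mul, abs_of_pos (by norm_num : (0 : ℝ) < 1 / 2)]
        have e5 := abs_sum_le_sum_abs (fun m0 : ℕ => ∑ m ∈ (Icc ⌈-M⌉ ⌊M⌋).filter (fun m => (q : ℤ) ∣ m - m0),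
            ArithmeticFunction.vonMangoldt (l ^ 2 + m ^ 2).natAbs - 2 * M / q * (gq q l * SS l)) (cl q W (σ * l0))
        have e6 := abs_nonneg (∑ m0 ∈ cl q W (σ * l0),
            (∑ m ∈ (Icc ⌈-M⌉ ⌊M⌋).filter (fun m => (q : ℤ) ∣ m - m0),
            ArithmeticFunction.vonMangoldt (l ^ 2 + m ^ 2).natAbs - 2 * M / q * (gq q l * SS l)))
        linarith
      refine (sum_le_sum e3).trans ?_
      rw [sum_comm]
      have e4 : ∀ m0 ∈ cl q W (σ * l0), ∑ l ∈ (Icc 1 ⌊L⌋).filter (fun l => (q : ℤ) ∣ l - l0),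
          |∑ m ∈ (Icc ⌈-M⌉ ⌊M⌋).filter (fun m => (q : ℤ) ∣ m - m0),
            ArithmeticFunction.vonMangoldt (l ^ 2 + m ^ 2).natAbs - 2 * M / q * (gq q l * SS l)| ≤
          C * L * M / (Real.log M) ^ A := by
        intro m0 hm0
        unfold cl at hm0
        rw [mem_filter] at hm0
        have hc1 := hW.cop _ _ hm0.2
        rw [mul_pow, hσ, one_mul] at hc1
        have hc2 : IsCoprime (⟨(l0 : ℤ), (m0 : ℤ)⟩ : ZI) ((q : ℕ) : ZI) := by
          apply cop_of_norm
          exact hc1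
        exact h M L l0 m0 hM3 hc2 h1 h2
      refine (sum_le_sum e4).trans ?_
      rw [sum_const, nsmul_eq_mul]
      refine mul_le_mul_of_nonneg_right ?_ hX
      have : (cl q W (σ * l0)).card ≤ q := by
        unfold cl
        refine (card_filter_le _ _).trans ?_
        rw [card_range]
      exact_mod_cast this
    refine (sum_le_sum e2).trans ?_
    rw [sum_const, nsmul_eq_mul, card_range]
    apply le_of_eq
    ring


open Classical in
/-- the weight -/
noncomputable def cD (W : ℤ → ℤ → Prop) (σ : ℤ) (l : ℕ) (m : ℕ) : ℝ := if W (σ * l) m then 1 else 0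

theorem fD_TT (hW : Adm q W) (σ : ℤ) (l t : ℕ) (hl : 1 ≤ l) (ht : 1 ≤ t) :
    |fD W σ l t - TT (cD W σ l) l t| ≤ Real.log l := by
  classical
  have hl1 : (1 : ℝ) ≤ l := by exact_mod_cast hl
  have ht1 : (1 : ℝ) ≤ t := by exact_mod_cast ht
  unfold fD
  rw [sum_filter]
  have h2 := two_sided ht1 (fun m => if W (σ * l) m then
    ArithmeticFunction.vonMangoldt ((l : ℤ) ^ 2 + m ^ 2).natAbs else 0) (fun m => by
      simp only [neg_sq]
      by_cases h : W (σ * l) m
      · rw [if_pos h, if_pos (hW.neg_iff.2 h)]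
      · rw [if_neg h, if_neg (fun h' => h (hW.neg_iff.1 h'))])
  beta_reduce at h2
  rw [h2, Int.floor_natCast, sum_int_nat]
  have h3 : ∑ m ∈ Icc 1 t, (if W (σ * l) (m : ℤ) then
      ArithmeticFunction.vonMangoldt ((l : ℤ) ^ 2 + (m : ℤ) ^ 2).natAbs else 0) = TT (cD W σ l) l t := by
    unfold TT cD
    refine sum_congr rfl fun m _ => ?_
    have : ((l : ℤ) ^ 2 + (m : ℤ) ^ 2).natAbs = l ^ 2 + m ^ 2 := by
      have : ((l : ℤ) ^ 2 + (m : ℤ) ^ 2) = ((l ^ 2 + m ^ 2 : ℕ) : ℤ) := by push_cast; ring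
      rw [this, Int.natAbs_natCast]
    rw [this]
    split_ifs <;> simp
  rw [h3]
  have h4 := vM_sq (L := (l : ℝ)) (l := (l : ℤ)) (by
    rw [mem_box]
    exact ⟨by omega, by simp⟩)
  rw [abs_of_nonneg ArithmeticFunction.vonMangoldt_nonneg] at h4
  have h5 : 0 ≤ Real.log l := Real.log_nonneg hl1
  by_cases hG0 : W (σ * l) 0
  · rw [if_pos hG0, abs_le]
    have h7 : 0 ≤ ArithmeticFunction.vonMangoldt ((l : ℤ) ^ 2 + 0 ^ 2).natAbs := ArithmeticFunction.vonMangoldt_nonneg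
    clear h2 h3
    generalize TT (cD W σ l) l t = X at *
    generalize ArithmeticFunction.vonMangoldt ((l : ℤ) ^ 2 + 0 ^ 2).natAbs = Y at *
    constructor
    · linarith
    · linarith
  · rw [if_neg hG0, abs_le]
    constructor <;> linarith

open Classical in
/-- the good `l` -/
def GoodD (q : ℕ) (W : ℤ → ℤ → Prop) (σ : ℤ) (ε : ℝ) (A : ℕ) (L : ℝ) (l : ℕ) : Prop :=
  sD q W σ l ≤ 19 * Real.log L ∧ ∀ u : ℝ, L ^ (1 + ε) ≤ u → u ≤ L ^ (3 / 2 - ε) →
    |PP (cD W σ l) l ⌊u⌋₊ - sD q W σ l * ∫ t in (2 : ℝ)..u, 1 / (2 * Real.log t)| ≤ u / (Real.log L) ^ A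

open Classical in
theorem almost_D (hW : Adm q W) (σ : ℤ) (hσ : σ ^ 2 = 1) (ε : ℝ) (A : ℕ) (hε : 0 < ε) (hε4 : ε ≤ 1 / 4) :
    ∃ L₀ : ℝ, 3 ≤ L₀ ∧ ∀ L : ℝ, L₀ ≤ L →
    (((Icc 1 ⌊L⌋₊).filter (fun l : ℕ => ¬ GoodD q W σ ε A L l)).card : ℝ) ≤ L / (Real.log L) ^ A := by
  have hav := avgD hW σ hσ
  obtain ⟨L₁, h1⟩ := hav.grid (ε / 2) (A + 2) (by positivity)
  obtain ⟨L₂, hL₂, h2⟩ := conv ε A 19 hε (by norm_num)
  obtain ⟨L₃, h3⟩ := eventually_atTop.1 ((ev_log_rpow 1 one_pos (A + 2) 2).and (ev_log_pow 1 2 one_pos 0))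
  refine ⟨max (max L₁ L₂) L₃, le_trans hL₂ (le_trans (le_max_right _ _) (le_max_left _ _)), fun L hL => ?_⟩
  have hLL1 : L₁ ≤ L := (le_trans (le_max_left _ _) (le_max_left _ _)).trans hL
  have hLL2 : L₂ ≤ L := (le_trans (le_max_right _ _) (le_max_left _ _)).trans hL
  have hLL3 : L₃ ≤ L := (le_max_right _ _).trans hL
  have hL3 : 3 ≤ L := hL₂.trans hLL2
  have hL0 : 0 < L := by linarith
  have hL1 : 1 ≤ L := by linarith
  have hlog : 1 ≤ Real.log L := by
    rw [Real.le_log_iff_exp_le hL0]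
    have := Real.exp_one_lt_d9
    linarith
  obtain ⟨hq, hq2⟩ := h3 L hLL3
  rw [Real.rpow_one] at hq
  rw [zero_add, pow_one, one_mul] at hq2
  have key := h1 L hLL1
  have hsub : (((Icc 1 ⌊L⌋₊).filter (fun l : ℕ => ¬ GoodD q W σ ε A L l)).card : ℝ) ≤
      ((((fun L : ℝ => Icc (1 : ℤ) ⌊L⌋) L).filter (fun l => ¬ ∀ u : ℝ, L ^ (1 + ε / 2) ≤ u → u ≤ L ^ (3 / 2 - ε / 2) →
        |fD W σ l u - u * sD q W σ l| ≤ u / (Real.log L) ^ (A + 2))).card : ℝ) := by
    rw [Nat.cast_le]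
    apply card_le_card_of_injOn (fun l : ℕ => (l : ℤ))
    · intro l hl
      rw [mem_coe, mem_filter, mem_Icc] at hl
      obtain ⟨⟨hl1, hlL⟩, hl⟩ := hl
      rw [Nat.le_floor_iff hL0.le] at hlL
      simp only [mem_coe, mem_filter]
      rw [mem_box]
      have hlmem : (l : ℤ) ∈ Icc (1 : ℤ) ⌊L⌋ := by
        rw [mem_box]
        exact ⟨by exact_mod_cast hl1, by exact_mod_cast hlL⟩
      refine ⟨⟨by exact_mod_cast hl1, by exact_mod_cast hlL⟩, ?_⟩
      intro hg
      apply hl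
      have hs0 : 0 ≤ sD q W σ l := hav.s0 L l hlmem
      set t0 : ℝ := L ^ (1 + ε / 2) with ht0
      have hLt0 : L ≤ t0 := by
        calc L = L ^ (1 : ℝ) := (Real.rpow_one L).symm
          _ ≤ _ := Real.rpow_le_rpow_of_exponent_le hL1 (by linarith)
      have ht03 : 3 ≤ t0 := by linarith
      have hK : sD q W σ (l : ℤ) ≤ 19 * Real.log L := by
        have e1 := hg t0 le_rfl (Real.rpow_le_rpow_of_exponent_le hL1 (by linarith))
        have e2 : fD W σ l t0 ≤ 9 * t0 * Real.log t0 := by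
          have hlr : (1 : ℤ) ≤ (l : ℤ) := by exact_mod_cast hl1
          have hlt : ((l : ℤ) : ℝ) ≤ t0 := by
            push_cast
            linarith
          have k1 := f1_triv (l : ℤ) t0 ht03 hlr hlt
          have k2 := two_sided (show 1 ≤ t0 by linarith)
            (fun m => ArithmeticFunction.vonMangoldt ((l : ℤ) ^ 2 + m ^ 2).natAbs) (fun m => by simp only [neg_sq])
          have k3 := vM_sq (L := t0) (l := (l : ℤ)) (by rw [mem_box]; exact ⟨hlr, hlt⟩)
          rw [abs_of_nonneg ArithmeticFunction.vonMangoldt_nonneg] at k3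
          have hlog0 : 0 ≤ Real.log t0 := Real.log_nonneg (by linarith)
          unfold fD
          have k4 : ∑ m ∈ (Icc ⌈-t0⌉ ⌊t0⌋).filter (fun m : ℤ => W (σ * l) m),
              ArithmeticFunction.vonMangoldt ((l : ℤ) ^ 2 + m ^ 2).natAbs ≤
              ∑ m ∈ Icc ⌈-t0⌉ ⌊t0⌋, ArithmeticFunction.vonMangoldt ((l : ℤ) ^ 2 + m ^ 2).natAbs :=
            sum_le_sum_of_subset_of_nonneg (filter_subset _ _) fun _ _ _ => ArithmeticFunction.vonMangoldt_nonneg
          have k5 : 2 * Real.log t0 ≤ 2 * (t0 * Real.log t0) := by nlinarith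
          unfold f1 at k1
          nlinarith
        have e3 : Real.log t0 ≤ 2 * Real.log L := by
          rw [ht0, Real.log_rpow hL0]
          nlinarith
        have e4 : t0 / (Real.log L) ^ (A + 2) ≤ t0 := div_le_self (by linarith) (one_le_pow₀ hlog)
        rw [abs_le] at e1
        have e5 : t0 * sD q W σ (l : ℤ) ≤ t0 * (19 * Real.log L) := by
          have e6 : 9 * t0 * Real.log t0 ≤ 9 * t0 * (2 * Real.log L) := mul_le_mul_of_nonneg_left e3 (by linarith)
          have e7 : t0 ≤ t0 * Real.log L := by nlinarith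
          nlinarith [e1.1]
        exact le_of_mul_le_mul_left e5 (by linarith)
      refine ⟨hK, ?_⟩
      refine h2 L hLL2 l (sD q W σ (l : ℤ)) (cD W σ l) hl1 hlL hs0 hK (fun m => by
        unfold cD
        split_ifs <;> norm_num) (fun t ht1 ht2 => ?_)
      have e1 := hg t ht1 (ht2.trans (Real.rpow_le_rpow_of_exponent_le hL1 (by linarith)))
      have ht3 : L ≤ t := hLt0.trans ht1
      have ht4 : 1 ≤ t := by
        have : (1 : ℝ) ≤ t := hL1.trans ht3
        exact_mod_cast this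
      have e2 := fD_TT hW σ l t hl1 ht4
      have e3 : Real.log l ≤ Real.log L := Real.log_le_log (by exact_mod_cast hl1) hlL
      have e4 := abs_add_le (TT (cD W σ l) l t - fD W σ l t) (fD W σ l t - t * sD q W σ l)
      rw [sub_add_sub_cancel, abs_sub_comm (TT (cD W σ l) l t) (fD W σ l t)] at e4
      set ℓ := Real.log L with hℓ
      have hp0 : 0 < ℓ ^ (A + 1) := by positivity
      have e5 : (t : ℝ) / ℓ ^ (A + 2) ≤ 1 / 2 * (t / ℓ ^ (A + 1)) := by
        rw [pow_succ ℓ (A + 1), ← div_div, div_le_iff₀ (by linarith)]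
        have : 0 ≤ (t : ℝ) / ℓ ^ (A + 1) := by positivity
        nlinarith
      have e6 : ℓ ≤ 1 / 2 * (t / ℓ ^ (A + 1)) := by
        have : 2 * ℓ ^ (A + 2) ≤ t := hq.trans ht3
        rw [mul_div_assoc', le_div_iff₀ hp0]
        have h9 : ℓ * ℓ ^ (A + 1) = ℓ ^ (A + 2) := by ring
        rw [h9]
        linarith
      linarith
    · intro a _ b _ h
      simpa using h
  refine hsub.trans (key.trans ?_)
  apply div_le_div_of_nonneg_left hL0.le (by positivity)
  exact pow_le_pow_right₀ hlog (by omega)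


/-- the constant for the trace `r` -/
noncomputable def cst (q : ℕ) (W : ℤ → ℤ → Prop) (r : ℤ) : ℝ :=
  if r % 2 = 0 then sD q W (if 0 < r then 1 else -1) ((r / 2).natAbs : ℤ) else 0

open Classical in
/-- `π r x` is the number of the `m ≥ 1` for which `(r / 2)² + m² ≤ x` is a prime and which satisfy the condition -/
structure Cnt (W : ℤ → ℤ → Prop) (π : ℤ → ℝ → ℕ) : Prop where
  even : ∀ (k : ℤ) (x : ℝ), k ≠ 0 → 0 ≤ x → π (2 * k) x = ((Icc 1 ⌊Real.sqrt (x - (k : ℝ) ^ 2)⌋₊).filter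
      (fun m : ℕ => (k.natAbs ^ 2 + m ^ 2).Prime ∧ W k m)).card
  odd : ∀ (r : ℤ) (x : ℝ), r % 2 = 1 → π r x = 0

/-- the conclusion for the trace `r` -/
def Tr (q : ℕ) (W : ℤ → ℤ → Prop) (π : ℤ → ℝ → ℕ) (ε : ℝ) (A : ℕ) (R : ℝ) (r : ℤ) : Prop :=
  ∀ x : ℝ, R ^ (2 + ε) ≤ x → x ≤ R ^ (3 - ε) →
    |(π r x : ℝ) - cst q W r * ∫ t in (2 : ℝ)..(Real.sqrt x), 1 / (2 * Real.log t)| ≤
      Real.sqrt x / (Real.log x) ^ A

/-- a good `l` gives the conclusion for the trace `2 σ l` -/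
theorem good_tr (hW : Adm q W) {π : ℤ → ℝ → ℕ} (hπ : Cnt W π) (ε : ℝ) (A : ℕ) (hε : 0 < ε) (hε2 : ε ≤ 1 / 2) :
    ∃ R₀ : ℝ, ∀ R : ℝ, R₀ ≤ R → ∀ (σ : ℤ) (l : ℕ), (σ = 1 ∨ σ = -1) → 1 ≤ l → (l : ℝ) ≤ R / 2 →
      GoodD q W σ (ε / 4) (A + 1) (R / 2) l → Tr q W π ε A R (2 * (σ * l)) := by
  classical
  have hev := (((ev_rpow_ge (ε / 8) 4 (by positivity)).and (eventually_ge_atTop (16 : ℝ))).and
    (ev_log_pow 1 (4 * 6 ^ A) one_pos 0)).and (ev_log_rpow (ε / 2) (by positivity) (A + 1) (40 * 3 ^ A))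
  obtain ⟨R₀, hR₀⟩ := eventually_atTop.1 hev
  refine ⟨R₀, fun R hR σ l hσ hl1 hlR hg x hx1 hx2 => ?_⟩
  obtain ⟨⟨⟨h1, hR16⟩, h3⟩, h4⟩ := hR₀ R hR
  rw [zero_add, pow_one, one_mul] at h3
  have hR0 : 0 < R := by linarith
  have hR1 : 1 ≤ R := by linarith
  set L : ℝ := R / 2 with hL
  have hL0 : 0 < L := by positivity
  have hL1 : 1 ≤ L := by linarith
  have hσ2 : σ ^ 2 = 1 := by rcases hσ with h | h <;> rw [h] <;> norm_num
  have hx0 : 0 < x := lt_of_lt_of_le (by positivity) hx1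
  -- sizes
  have hxR : R ^ 2 * R ^ ε ≤ x := by
    have : R ^ (2 + ε) = R ^ 2 * R ^ ε := by
      rw [Real.rpow_add hR0]
      congr 1
      rw [show (2 : ℝ) = ((2 : ℕ) : ℝ) by norm_num, Real.rpow_natCast]
    rw [← this]
    exact hx1
  have hRe : 4 ≤ R ^ ε := by
    refine h1.trans (Real.rpow_le_rpow_of_exponent_le hR1 ?_)
    linarith
  have hRe2 : 1 ≤ R ^ (ε / 2) := Real.one_le_rpow hR1 (by positivity)
  have hl2 : (l : ℝ) ^ 2 ≤ R ^ 2 / 4 := by
    have : (l : ℝ) ^ 2 ≤ (R / 2) ^ 2 := pow_le_pow_left₀ (by positivity) hlR 2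
    calc (l : ℝ) ^ 2 ≤ (R / 2) ^ 2 := this
      _ = R ^ 2 / 4 := by ring
  have hR2x : R ^ 2 ≤ x := by
    have : 0 < R ^ 2 := by positivity
    nlinarith
  have hlx : (l : ℝ) ^ 2 ≤ x / 4 := by linarith
  set u : ℝ := Real.sqrt (x - (l : ℝ) ^ 2) with hu
  have hsx : 0 < Real.sqrt x := Real.sqrt_pos.2 hx0
  have hux : u ≤ Real.sqrt x := Real.sqrt_le_sqrt (by nlinarith [sq_nonneg (l : ℝ)])
  have hu2 : u ^ 2 = x - (l : ℝ) ^ 2 := Real.sq_sqrt (by linarith)
  have hsx2 : Real.sqrt x ^ 2 = x := Real.sq_sqrt hx0.le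
  have hu0 : 0 ≤ u := Real.sqrt_nonneg _
  have hu1 : Real.sqrt x / 2 ≤ u := by
    apply le_of_sq_le_sq _ hu0
    rw [hu2, div_pow, hsx2]
    linarith
  have hsR : R ^ (1 + ε / 2) ≤ Real.sqrt x := by
    rw [Real.le_sqrt' (by positivity)]
    refine le_trans (le_of_eq ?_) hx1
    rw [← Real.rpow_natCast, ← Real.rpow_mul hR0.le]
    congr 1
    push_cast
    ring
  have hsR2 : Real.sqrt x ≤ R ^ (3 / 2 - ε / 2) := by
    rw [Real.sqrt_le_left (by positivity)]
    refine hx2.trans (le_of_eq ?_)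
    rw [← Real.rpow_natCast, ← Real.rpow_mul hR0.le]
    congr 1
    push_cast
    ring
  have hu4 : L ^ (1 + ε / 4) ≤ u := by
    refine le_trans ?_ hu1
    have e1 : L ^ (1 + ε / 4) ≤ R ^ (1 + ε / 4) := Real.rpow_le_rpow hL0.le (by linarith) (by positivity)
    have e2 : R ^ (1 + ε / 4) * 2 ≤ R ^ (1 + ε / 2) := by
      calc R ^ (1 + ε / 4) * 2 ≤ R ^ (1 + ε / 4) * R ^ (ε / 4) := by
            refine mul_le_mul_of_nonneg_left ?_ (by positivity)
            have := Real.rpow_le_rpow_of_exponent_le hR1 (show ε / 8 ≤ ε / 4 by linarith)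
            linarith
        _ = R ^ (1 + ε / 2) := by
            rw [← Real.rpow_add hR0]
            congr 1
            ring
    linarith
  have hu5 : u ≤ L ^ (3 / 2 - ε / 4) := by
    refine hux.trans (hsR2.trans ?_)
    -- `R^(3/2 - ε/2) ≤ (R/2)^(3/2 - ε/4)`
    have e1 : L ^ (3 / 2 - ε / 4) = R ^ (3 / 2 - ε / 4) / 2 ^ (3 / 2 - ε / 4) := by
      rw [hL, Real.div_rpow hR0.le (by norm_num)]
    rw [e1, le_div_iff₀ (by positivity)]
    have e2 : (2 : ℝ) ^ (3 / 2 - ε / 4) ≤ R ^ (ε / 4) := by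
      have e3 : (2 : ℝ) ^ (3 / 2 - ε / 4) ≤ 2 ^ (2 : ℝ) := Real.rpow_le_rpow_of_exponent_le (by norm_num) (by linarith)
      have e4 : (2 : ℝ) ^ (2 : ℝ) = 4 := by
        rw [show (2 : ℝ) ^ (2 : ℝ) = (2 : ℝ) ^ ((2 : ℕ) : ℝ) by norm_num, Real.rpow_natCast]
        norm_num
      have e5 := Real.rpow_le_rpow_of_exponent_le hR1 (show ε / 8 ≤ ε / 4 by linarith)
      linarith
    calc R ^ (3 / 2 - ε / 2) * 2 ^ (3 / 2 - ε / 4) ≤ R ^ (3 / 2 - ε / 2) * R ^ (ε / 4) :=
          mul_le_mul_of_nonneg_left e2 (by positivity)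
      _ = R ^ (3 / 2 - ε / 4) := by
          rw [← Real.rpow_add hR0]
          congr 1
          ring
  -- the number of primes
  have ha : (σ * l : ℤ) ≠ 0 := by
    rcases hσ with h | h <;> rw [h] <;> omega
  have hna : (σ * l : ℤ).natAbs = l := by
    rcases hσ with h | h <;> rw [h] <;> simp
  have hpi : (π (2 * (σ * l)) x : ℝ) = PP (cD W σ l) l ⌊u⌋₊ := by
    rw [hπ.even (σ * l) x ha hx0.le]
    unfold PP cD
    have e1 : Real.sqrt (x - (((σ * l : ℤ)) : ℝ) ^ 2) = u := by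
      rw [hu]
      congr 2
      push_cast
      rw [mul_pow]
      have : ((σ : ℝ)) ^ 2 = 1 := by exact_mod_cast hσ2
      rw [this, one_mul]
    rw [e1, hna, card_filter]
    push_cast
    refine sum_congr rfl fun m _ => ?_
    by_cases h1 : (l ^ 2 + m ^ 2).Prime
    · by_cases h2 : W (σ * l) m
      · rw [if_pos ⟨h1, h2⟩, if_pos h2, if_pos h1, mul_one]
      · rw [if_neg (fun h => h2 h.2), if_neg h2, zero_mul]
    · rw [if_neg (fun h => h1 h.1), if_neg h1, mul_zero]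
  -- the constant
  have hcst : cst q W (2 * (σ * l)) = sD q W σ l := by
    unfold cst
    have e1 : (2 * (σ * l) : ℤ) % 2 = 0 := by omega
    rw [if_pos e1]
    have e2 : (2 * (σ * l) : ℤ) / 2 = σ * l := by omega
    have e3 : (if 0 < (2 * (σ * l) : ℤ) then (1 : ℤ) else -1) = σ := by
      rcases hσ with h | h
      · rw [h, if_pos (by omega)]
      · rw [h, if_neg (by omega)]
    rw [e2, hna, e3]
  rw [hpi, hcst]
  obtain ⟨hs, hgu⟩ := hg
  have hgu := hgu u hu4 hu5
  have hs0 : 0 ≤ sD q W σ l := (avgD hW σ hσ2).s0 l l (by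
    rw [mem_box]
    exact ⟨by exact_mod_cast hl1, by simp⟩)
  -- the integrals
  have hu6 : 2 ≤ u := by
    have e1 : (4 : ℝ) ≤ R ^ (1 + ε / 2) := by
      calc (4 : ℝ) ≤ R := by linarith
        _ = R ^ (1 : ℝ) := (Real.rpow_one R).symm
        _ ≤ _ := Real.rpow_le_rpow_of_exponent_le hR1 (by linarith)
    linarith
  have hd1 := int_diff hu6 hux
  have hd2 : Real.sqrt x - u ≤ (l : ℝ) ^ 2 / Real.sqrt x := by
    rw [le_div_iff₀ hsx]
    nlinarith
  have hd3 : (l : ℝ) ^ 2 / Real.sqrt x ≤ Real.sqrt x * (1 / R ^ ε) := by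
    rw [div_le_iff₀ hsx]
    have e1 : Real.sqrt x * (1 / R ^ ε) * Real.sqrt x = x / R ^ ε := by
      have := hsx2
      field_simp
      linarith
    rw [e1, le_div_iff₀ (by positivity)]
    have : 0 ≤ R ^ ε := by positivity
    nlinarith
  -- the logarithms
  have hlogR : 0 < Real.log R := Real.log_pos (by linarith)
  have hlogx : Real.log x ≤ 3 * Real.log R := by
    have e1 : x ≤ R ^ (3 : ℝ) := hx2.trans (Real.rpow_le_rpow_of_exponent_le hR1 (by linarith))
    have e2 := Real.log_le_log hx0 e1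
    rwa [Real.log_rpow hR0] at e2
  have hlogx0 : 1 ≤ Real.log x := by
    rw [Real.le_log_iff_exp_le hx0]
    have := Real.exp_one_lt_d9
    nlinarith
  have hlogL : Real.log R / 2 ≤ Real.log L := by
    have e1 : Real.sqrt R ≤ L := by
      rw [Real.sqrt_le_left hL0.le, hL]
      nlinarith
    have e2 := Real.log_le_log (Real.sqrt_pos.2 hR0) e1
    rwa [Real.log_sqrt hR0.le] at e2
  have hlogLR : Real.log L ≤ Real.log R := Real.log_le_log hL0 (by linarith)
  have hlogL0 : 0 < Real.log L := by linarith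
  have k1 : u / (Real.log L) ^ (A + 1) ≤ 1 / 2 * (Real.sqrt x / (Real.log x) ^ A) := by
    have e1 : 2 * (Real.log x) ^ A ≤ (Real.log L) ^ (A + 1) := by
      have e2 : (Real.log x) ^ A ≤ (6 * Real.log L) ^ A := pow_le_pow_left₀ (by linarith) (by linarith) A
      rw [mul_pow] at e2
      have e3 : 2 * 6 ^ A ≤ Real.log L := by linarith
      calc 2 * (Real.log x) ^ A ≤ 2 * (6 ^ A * (Real.log L) ^ A) := by linarith
        _ = (2 * 6 ^ A) * (Real.log L) ^ A := by ring
        _ ≤ Real.log L * (Real.log L) ^ A := mul_le_mul_of_nonneg_right e3 (by positivity)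
        _ = _ := by ring
    rw [mul_div_assoc', div_le_div_iff₀ (by positivity) (by positivity)]
    calc u * (Real.log x) ^ A ≤ Real.sqrt x * (Real.log x) ^ A := mul_le_mul_of_nonneg_right hux (by positivity)
      _ = 1 / 2 * Real.sqrt x * (2 * (Real.log x) ^ A) := by ring
      _ ≤ 1 / 2 * Real.sqrt x * (Real.log L) ^ (A + 1) := mul_le_mul_of_nonneg_left e1 (by positivity)
  have k2 : sD q W σ l * (Real.sqrt x - u) ≤ 1 / 2 * (Real.sqrt x / (Real.log x) ^ A) := by
    have e1 : sD q W σ l * (Real.sqrt x - u) ≤ 19 * Real.log L * (Real.sqrt x * (1 / R ^ ε)) :=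
      mul_le_mul hs (hd2.trans hd3) (by linarith) (by positivity)
    refine e1.trans ?_
    have e2 : 38 * Real.log R * (Real.log x) ^ A ≤ R ^ ε := by
      have e3 : (Real.log x) ^ A ≤ (3 * Real.log R) ^ A := pow_le_pow_left₀ (by linarith) hlogx A
      rw [mul_pow] at e3
      have e4 : R ^ (ε / 2) ≤ R ^ ε := Real.rpow_le_rpow_of_exponent_le hR1 (by linarith)
      calc 38 * Real.log R * (Real.log x) ^ A ≤ 40 * Real.log R * (3 ^ A * (Real.log R) ^ A) := by
            refine mul_le_mul (by linarith) e3 (by positivity) (by positivity)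
        _ = 40 * 3 ^ A * (Real.log R) ^ (A + 1) := by ring
        _ ≤ R ^ (ε / 2) := h4
        _ ≤ R ^ ε := e4
    have e5 : 0 < R ^ ε := by positivity
    have e6 : 19 * Real.log L * (Real.sqrt x * (1 / R ^ ε)) ≤ 19 * Real.log R * (Real.sqrt x * (1 / R ^ ε)) := by
      gcongr
    refine e6.trans ?_
    have e7 : 19 * Real.log R * (Real.sqrt x * (1 / R ^ ε)) = 19 * Real.log R * Real.sqrt x / R ^ ε := by ring
    rw [e7, mul_div_assoc', div_le_div_iff₀ e5 (by positivity)]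
    calc 19 * Real.log R * Real.sqrt x * (Real.log x) ^ A = 1 / 2 * Real.sqrt x * (38 * Real.log R * (Real.log x) ^ A) := by
          ring
      _ ≤ 1 / 2 * Real.sqrt x * R ^ ε := mul_le_mul_of_nonneg_left e2 (by positivity)
  have k3 : |sD q W σ l * (∫ t in (2 : ℝ)..u, 1 / (2 * Real.log t)) -
      sD q W σ l * ∫ t in (2 : ℝ)..(Real.sqrt x), 1 / (2 * Real.log t)| ≤ sD q W σ l * (Real.sqrt x - u) := by
    rw [← mul_sub, abs_mul, abs_of_nonneg hs0, abs_sub_comm]
    exact mul_le_mul_of_nonneg_left hd1 hs0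
  have k4 := abs_add_le (PP (cD W σ l) l ⌊u⌋₊ - sD q W σ l * ∫ t in (2 : ℝ)..u, 1 / (2 * Real.log t))
    (sD q W σ l * (∫ t in (2 : ℝ)..u, 1 / (2 * Real.log t)) -
      sD q W σ l * ∫ t in (2 : ℝ)..(Real.sqrt x), 1 / (2 * Real.log t))
  rw [sub_add_sub_cancel] at k4
  linarith

open Classical in
/-- **Lang–Trotter for almost all traces** -/
theorem lt_all (hW : Adm q W) {π : ℤ → ℝ → ℕ} (hπ : Cnt W π) (ε : ℝ) (A : ℕ) (hε : 0 < ε) : ∃ R₀ : ℝ, ∀ R : ℝ, R₀ ≤ R →
    (((Icc ⌈-R⌉ ⌊R⌋).filter (fun r : ℤ => ¬ Tr q W π ε A R r)).card : ℝ) ≤ R / (Real.log R) ^ A := by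
  by_cases hε2 : 1 / 2 < ε
  · -- the interval is empty
    refine ⟨3, fun R hR => ?_⟩
    rw [filter_false_of_mem]
    · rw [card_empty]
      have : 0 ≤ Real.log R := Real.log_nonneg (by linarith)
      push_cast
      positivity
    · intro l _
      rw [not_not]
      intro x h1 h2
      exfalso
      have h3 : R ^ (3 - ε) < R ^ (2 + ε) := Real.rpow_lt_rpow_of_exponent_lt (by linarith) (by linarith)
      linarith
  push Not at hε2
  obtain ⟨R₁, h1⟩ := good_tr hW hπ ε A hε hε2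
  obtain ⟨L₁, hL₁, g1⟩ := almost_D hW 1 (by norm_num) (ε / 4) (A + 1) (by positivity) (by linarith)
  obtain ⟨L₂, hL₂, g2⟩ := almost_D hW (-1) (by norm_num) (ε / 4) (A + 1) (by positivity) (by linarith)
  obtain ⟨R₂, h2⟩ := eventually_atTop.1 (((ev_log_pow 1 (4 * 2 ^ A) one_pos 0).and (ev_log_rpow 1 one_pos A 2)).and
    (eventually_ge_atTop (16 : ℝ)))
  refine ⟨max (max R₁ R₂) (2 * max L₁ L₂), fun R hR => ?_⟩
  have hRR1 : R₁ ≤ R := ((le_max_left _ _).trans (le_max_left _ _)).trans hR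
  have hRR2 : R₂ ≤ R := ((le_max_right _ _).trans (le_max_left _ _)).trans hR
  have hRR3 : 2 * max L₁ L₂ ≤ R := (le_max_right _ _).trans hR
  obtain ⟨⟨h3, h4⟩, hR16⟩ := h2 R hRR2
  rw [zero_add, pow_one, one_mul] at h3
  rw [Real.rpow_one] at h4
  have hR0 : 0 < R := by linarith
  have hR1 : 1 ≤ R := by linarith
  have hL1 : L₁ ≤ R / 2 := by
    have := le_max_left L₁ L₂
    linarith
  have hL2 : L₂ ≤ R / 2 := by
    have := le_max_right L₁ L₂
    linarith
  have k1 := g1 (R / 2) hL1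
  have k2 := g2 (R / 2) hL2
  set B1 := (Icc 1 ⌊R / 2⌋₊).filter (fun l : ℕ => ¬ GoodD q W 1 (ε / 4) (A + 1) (R / 2) l) with hB1
  set B2 := (Icc 1 ⌊R / 2⌋₊).filter (fun l : ℕ => ¬ GoodD q W (-1) (ε / 4) (A + 1) (R / 2) l) with hB2
  have hsub : (Icc ⌈-R⌉ ⌊R⌋).filter (fun r : ℤ => ¬ Tr q W π ε A R r) ⊆
      {0} ∪ (B1.image (fun l : ℕ => (2 * (1 * l) : ℤ)) ∪ B2.image (fun l : ℕ => (2 * (-1 * l) : ℤ))) := by
    intro r hr
    rw [mem_filter, mem_box2] at hr
    obtain ⟨hrR, hr⟩ := hr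
    rw [mem_union, mem_singleton, mem_union]
    by_cases hr0 : r = 0
    · left
      exact hr0
    right
    by_cases hr4 : r % 2 = 0
    · -- `r = 2 σ l`
      set l : ℕ := (r / 2).natAbs with hl
      have hl1 : 1 ≤ l := by omega
      have hlR : (l : ℝ) ≤ R / 2 := by
        have e1 : ((2 * l : ℕ) : ℤ) = |r| := by
          push_cast
          rw [hl, Int.natCast_natAbs]
          rcases lt_or_gt_of_ne hr0 with h | h
          · rw [abs_of_neg h, abs_of_neg (by omega)]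
            omega
          · rw [abs_of_pos h, abs_of_pos (by omega)]
            omega
        have e2 : ((2 * l : ℕ) : ℝ) = |(r : ℝ)| := by
          rw [← Int.cast_abs, ← e1]
          push_cast
          ring
        rw [← e2] at hrR
        push_cast at hrR
        linarith
      have hmem : l ∈ Icc 1 ⌊R / 2⌋₊ := by
        rw [mem_Icc]
        exact ⟨hl1, Nat.le_floor hlR⟩
      rcases lt_or_gt_of_ne hr0 with h | h
      · right
        rw [mem_image]
        refine ⟨l, ?_, by omega⟩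
        rw [hB2, mem_filter]
        refine ⟨hmem, fun hg => hr ?_⟩
        have := h1 R hRR1 (-1) l (Or.inr rfl) hl1 hlR hg
        have e1 : (2 * (-1 * l) : ℤ) = r := by omega
        rwa [e1] at this
      · left
        rw [mem_image]
        refine ⟨l, ?_, by omega⟩
        rw [hB1, mem_filter]
        refine ⟨hmem, fun hg => hr ?_⟩
        have := h1 R hRR1 1 l (Or.inl rfl) hl1 hlR hg
        have e1 : (2 * (1 * l) : ℤ) = r := by omega
        rwa [e1] at this
    · exfalso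
      apply hr
      intro x hx1 hx2
      rw [hπ.odd r x (by omega)]
      unfold cst
      rw [if_neg hr4]
      have hx0 : 0 < x := lt_of_lt_of_le (by positivity) hx1
      have hx3 : 1 ≤ x := (Real.one_le_rpow hR1 (by linarith)).trans hx1
      have := Real.log_nonneg hx3
      simp only [Nat.cast_zero, zero_mul, sub_zero, abs_zero]
      positivity
  have hcard : (((Icc ⌈-R⌉ ⌊R⌋).filter (fun r : ℤ => ¬ Tr q W π ε A R r)).card : ℝ) ≤ 1 + (B1.card + B2.card) := by
    have e1 := (card_le_card hsub).trans ((card_union_le _ _).trans (add_le_add_right ((card_union_le _ _).trans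
      (add_le_add card_image_le card_image_le)) _))
    rw [card_singleton] at e1
    exact_mod_cast e1
  refine hcard.trans ?_
  have hlogR : 1 ≤ Real.log R := by
    rw [Real.le_log_iff_exp_le hR0]
    have := Real.exp_one_lt_d9
    linarith
  have hlogL : Real.log R / 2 ≤ Real.log (R / 2) := by
    have e1 : Real.sqrt R ≤ R / 2 := by
      rw [Real.sqrt_le_left (by positivity)]
      nlinarith
    have e2 := Real.log_le_log (Real.sqrt_pos.2 hR0) e1
    rwa [Real.log_sqrt hR0.le] at e2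
  set ℓ := Real.log R with hℓ
  have k3 : R / 2 / (Real.log (R / 2)) ^ (A + 1) ≤ 1 / 4 * (R / ℓ ^ A) := by
    have e1 : 2 * ℓ ^ A ≤ (Real.log (R / 2)) ^ (A + 1) := by
      calc 2 * ℓ ^ A ≤ (ℓ / 2) ^ (A + 1) := by
            rw [div_pow, pow_succ ℓ A, le_div_iff₀ (by positivity)]
            have : 0 ≤ ℓ ^ A := by positivity
            calc 2 * ℓ ^ A * 2 ^ (A + 1) = ℓ ^ A * (4 * 2 ^ A) := by ring
              _ ≤ ℓ ^ A * ℓ := mul_le_mul_of_nonneg_left h3 this
        _ ≤ _ := pow_le_pow_left₀ (by positivity) hlogL _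
    have e2 : 0 < Real.log (R / 2) := by linarith
    rw [mul_div_assoc', div_le_div_iff₀ (by positivity) (by positivity)]
    calc R / 2 * ℓ ^ A = 1 / 4 * R * (2 * ℓ ^ A) := by ring
      _ ≤ 1 / 4 * R * (Real.log (R / 2)) ^ (A + 1) := mul_le_mul_of_nonneg_left e1 (by positivity)
  have k4 : 1 ≤ 1 / 2 * (R / ℓ ^ A) := by
    rw [mul_div_assoc', le_div_iff₀ (by positivity)]
    linarith
  linarith


end Pool.Agent.J6H22.LT
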