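import Pool.Agent.J6H22.LT.Period
import Pool.Agent.J6H22.LT.Gen

/-!
# The primes with given traces for a finite family of curves with complex multiplication by orders of `ℚ(i)`
-/

set_option autoImplicit false

namespace Pool.Agent.J6H22.LT

open Finset Pool.Agent.R441.Q4

/-- `a`, `b` belong to one of the curves `y² = x³ + b x`, `y² = x³ - 6 d x² + d² x` -/
def CM (a b : ℤ) : Prop := (a = 0 ∧ b ≠ 0) ∨ ∃ d : ℤ, d ≠ 0 ∧ a = -6 * d ∧ b = d ^ 2

/-- the number `D` such that the curve is isogenous to `y² = x³ - D x` -/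
def tw (a b : ℤ) : ℤ := if a = 0 then -b else b

theorem CM.ne {a b : ℤ} (h : CM a b) : b ≠ 0 := by
  rcases h with ⟨-, h⟩ | ⟨d, hd, -, rfl⟩
  · exact h
  · exact pow_ne_zero 2 hd

theorem CM.tw_ne {a b : ℤ} (h : CM a b) : tw a b ≠ 0 := by
  have := h.ne
  unfold tw
  split_ifs
  · exact neg_ne_zero.2 this
  · exact this

theorem tw_natAbs (a b : ℤ) : (tw a b).natAbs = b.natAbs := by
  unfold tw
  split_ifs
  · exact Int.natAbs_neg b
  · rfl

theorem CM.tr {a b : ℤ} (h : CM a b) {p : ℕ} (hp : p.Prime) (h2 : p ≠ 2) (hb : ¬ (p : ℤ) ∣ b) :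
    tr a b p = tr 0 (-tw a b) p := by
  rcases h with ⟨rfl, hb0⟩ | ⟨d, hd, rfl, rfl⟩
  · unfold tw
    rw [if_pos rfl, neg_neg]
  · have hpd : ¬ (p : ℤ) ∣ d := fun h => hb (dvd_pow h two_ne_zero)
    unfold tw
    rw [if_neg (by omega), tr_287496 hp h2 hpd]

variable {ι : Type} [Fintype ι]

/-- the condition for `(r / 2, m)` -/
def W (a b s : ι → ℤ) (q c : ℕ) (k m : ℤ) : Prop :=
  (q : ℤ) ∣ k ^ 2 + m ^ 2 - c ∧ ∀ i, cond (tw (a i) (b i)) (s i) k m

/-- the modulus -/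
def md (b : ι → ℤ) (q : ℕ) : ℕ := 8 * q * ∏ i, (b i).natAbs

theorem adm [Nonempty ι] {a b s : ι → ℤ} (h : ∀ i, CM (a i) (b i)) {q c : ℕ} (hq : 1 ≤ q) (hc : c.Coprime q) :
    Adm (md b q) (W a b s q c) where
  one_le := by
    unfold md
    have h1 : 0 < ∏ i, (b i).natAbs := prod_pos fun i _ => Int.natAbs_pos.2 (h i).ne
    have : 0 < 8 * q * ∏ i, (b i).natAbs := by positivity
    omega
  per := fun k m k' m' hk hm hW => by
    obtain ⟨h1, h2⟩ := hW
    have hqd : (q : ℤ) ∣ (md b q : ℤ) := by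
      unfold md
      push_cast
      exact ⟨8 * ∏ i, |b i|, by ring⟩
    refine ⟨?_, fun i => ?_⟩
    · have h3 : (q : ℤ) ∣ (k - k') * (k + k') + (m - m') * (m + m') :=
        dvd_add ((hqd.trans hk).mul_right _) ((hqd.trans hm).mul_right _)
      have e : k' ^ 2 + m' ^ 2 - (c : ℤ) = (k ^ 2 + m ^ 2 - c) - ((k - k') * (k + k') + (m - m') * (m + m')) := by ring
      rw [e]
      exact dvd_sub h1 h3
    · have hbd : 8 * tw (a i) (b i) ∣ (md b q : ℤ) := by
        have h3 : (b i).natAbs ∣ ∏ i, (b i).natAbs := dvd_prod_of_mem _ (mem_univ i)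
        have h4 : (8 * (b i).natAbs : ℤ) ∣ (md b q : ℤ) := by
          unfold md
          obtain ⟨z, hz⟩ := h3
          rw [hz]
          exact ⟨q * z, by push_cast; ring⟩
        refine dvd_trans ?_ h4
        apply mul_dvd_mul_left
        rw [Int.dvd_natCast, tw_natAbs]
      exact cond_per (h i).tw_ne (hbd.trans hk) (hbd.trans hm) (h2 i)
  neg := fun k m hW => ⟨by rw [neg_sq]; exact hW.1, fun i => cond_neg (hW.2 i)⟩
  cop := fun k m hW => by
    obtain ⟨h1, h2⟩ := hW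
    obtain ⟨i0⟩ := ‹Nonempty ι›
    unfold md
    push_cast
    have h8 : IsCoprime (k ^ 2 + m ^ 2) (8 : ℤ) := (cond_cop_int (h2 i0)).of_mul_right_left
    have hqc : IsCoprime (k ^ 2 + m ^ 2) (q : ℤ) := by
      have h3 : IsCoprime (c : ℤ) (q : ℤ) := Nat.isCoprime_iff_coprime.2 hc
      obtain ⟨z, hz⟩ := h1
      have e : k ^ 2 + m ^ 2 = (c : ℤ) + (q : ℤ) * z := by linear_combination hz
      rw [e]
      exact IsCoprime.add_mul_left_left h3 z
    refine (h8.mul_right hqc).mul_right ?_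
    apply IsCoprime.prod_right
    intro i _
    have h3 : IsCoprime (k ^ 2 + m ^ 2) (tw (a i) (b i)) := (cond_cop_int (h2 i)).of_mul_right_right
    have h4 : |b i| = |tw (a i) (b i)| := by
      rw [Int.abs_eq_natAbs, Int.abs_eq_natAbs, tw_natAbs]
    rw [h4]
    exact (IsCoprime.abs_right_iff _ _).2 h3

open Classical in
/-- the number of the primes -/
noncomputable def cnt (a b s : ι → ℤ) (q c : ℕ) (r : ℤ) (x : ℝ) : ℕ :=
  ((Icc 1 ⌊x⌋₊).filter (fun p : ℕ => p.Prime ∧ p ≠ 2 ∧ (∀ i, ¬ (p : ℤ) ∣ b i) ∧ p ≡ c [MOD q] ∧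
    ∀ i, tr (a i) (b i) p = s i * r)).card

theorem cond_prime {D s l m : ℤ} (hs : s = 1 ∨ s = -1) {p : ℕ} (hp : p.Prime) (h2 : p ≠ 2) (hD : ¬ (p : ℤ) ∣ D)
    (hlm : l ^ 2 + m ^ 2 = p) : cond D s l m ↔ tr 0 (-D) p = s * (2 * l) := by
  have hn : (⟨l, m⟩ : ZI).norm = p := by
    rw [norm_def']
    exact hlm
  rw [tr_iff hp h2 hn hD hs]
  unfold cond
  rw [Q_prime (nrm_prime hp hn)]

theorem cnt_spec [Nonempty ι] {a b s : ι → ℤ} (h : ∀ i, CM (a i) (b i)) (hs : ∀ i, s i = 1 ∨ s i = -1) (q c : ℕ) :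
    Cnt (W a b s q c) (cnt a b s q c) where
  even := fun k x hk hx => by
    classical
    have hcast : ∀ m : ℕ, ((k.natAbs ^ 2 + m ^ 2 : ℕ) : ℤ) = k ^ 2 + (m : ℤ) ^ 2 := by
      intro m
      push_cast
      rw [sq_abs]
    have hfl : ∀ m : ℕ, 1 ≤ m → (m ≤ ⌊Real.sqrt (x - (k : ℝ) ^ 2)⌋₊ ↔ k.natAbs ^ 2 + m ^ 2 ≤ ⌊x⌋₊) := by
      intro m hm
      have hm1 : (1 : ℝ) ≤ m := by exact_mod_cast hm
      rw [Nat.le_floor_iff (Real.sqrt_nonneg _), Nat.le_floor_iff hx, Real.le_sqrt' (by linarith)]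
      have h1 : ((k.natAbs ^ 2 + m ^ 2 : ℕ) : ℝ) = (k : ℝ) ^ 2 + (m : ℝ) ^ 2 := by
        push_cast
        rw [Nat.cast_natAbs]
        push_cast
        rw [sq_abs]
      rw [h1]
      constructor
      · intro h
        linarith
      · intro h
        linarith
    unfold cnt
    symm
    apply card_bij (fun m _ => k.natAbs ^ 2 + m ^ 2)
    · intro m hm
      rw [mem_filter, mem_Icc] at hm
      obtain ⟨⟨hm1, hm2⟩, hp, hW1, hW2⟩ := hm
      rw [hfl m hm1] at hm2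
      rw [mem_filter, mem_Icc]
      have hcop : ∀ i, IsCoprime (((k.natAbs ^ 2 + m ^ 2 : ℕ) : ℤ)) (8 * tw (a i) (b i)) := by
        intro i
        rw [hcast]
        exact cond_cop_int (hW2 i)
      set p := k.natAbs ^ 2 + m ^ 2 with hpd
      have hnu : ¬ IsUnit (p : ℤ) := by
        have := hp.one_lt
        rw [Int.isUnit_iff]
        omega
      have hndt : ∀ i, ¬ (p : ℤ) ∣ tw (a i) (b i) := fun i hd =>
        hnu ((hcop i).of_mul_right_right.isUnit_of_dvd' dvd_rfl hd)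
      have hnd : ∀ i, ¬ (p : ℤ) ∣ b i := by
        intro i hd
        apply hndt i
        rw [← Int.dvd_natAbs, tw_natAbs, Int.dvd_natAbs]
        exact hd
      have h2 : p ≠ 2 := by
        obtain ⟨i0⟩ := ‹Nonempty ι›
        intro h2
        apply hnu
        refine (hcop i0).of_mul_right_left.isUnit_of_dvd' dvd_rfl ?_
        rw [h2]
        norm_num
      refine ⟨⟨hp.pos, hm2⟩, hp, h2, hnd, ?_, fun i => ?_⟩
      · rw [Nat.ModEq.comm, Nat.modEq_iff_dvd, hpd, hcast]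
        exact hW1
      · rw [(h i).tr hp h2 (hnd i)]
        exact (cond_prime (hs i) hp h2 (hndt i) (by rw [hpd, hcast])).1 (hW2 i)
    · intro m _ m' _ h
      have : m ^ 2 = m' ^ 2 := by
        have h1 : k.natAbs ^ 2 + m ^ 2 = k.natAbs ^ 2 + m' ^ 2 := h
        omega
      exact Nat.pow_left_injective (by norm_num) this
    · intro p hp
      rw [mem_filter, mem_Icc] at hp
      obtain ⟨⟨-, hpx⟩, hp, h2, hnd, hpc, ht⟩ := hp
      have hndt : ∀ i, ¬ (p : ℤ) ∣ tw (a i) (b i) := by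
        intro i hd
        apply hnd i
        rw [← Int.dvd_natAbs, ← tw_natAbs (a i), Int.dvd_natAbs]
        exact hd
      have ht' : ∀ i, Pool.Agent.J6H22.LT.tr 0 (-tw (a i) (b i)) p = s i * (2 * k) := by
        intro i
        rw [← (h i).tr hp h2 (hnd i)]
        exact ht i
      obtain ⟨i0⟩ := ‹Nonempty ι›
      obtain ⟨k0, h3, h4⟩ := exists_rep hp h2 (hndt i0)
      rw [ht' i0] at h3
      have hk0 : k0 = s i0 * k := by
        rcases hs i0 with h5 | h5 <;> rw [h5] at h3 ⊢ <;> linarith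
      obtain ⟨m, hm1, hm⟩ := h4 (by
        rw [hk0]
        rcases hs i0 with h5 | h5 <;> rw [h5] <;> omega)
      have hkm : k ^ 2 + m ^ 2 = p := by
        rw [← hm, hk0, mul_pow]
        rcases hs i0 with h5 | h5 <;> rw [h5] <;> ring
      have hmn : ((m.toNat : ℕ) : ℤ) = m := Int.toNat_of_nonneg (by omega)
      have hpe : k.natAbs ^ 2 + m.toNat ^ 2 = p := by
        have := hcast m.toNat
        rw [hmn, hkm] at this
        exact_mod_cast this
      refine ⟨m.toNat, ?_, hpe⟩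
      rw [mem_filter, mem_Icc]
      refine ⟨⟨by omega, ?_⟩, ?_, ?_, fun i => ?_⟩
      · rw [hfl _ (by omega), hpe]
        exact hpx
      · rw [hpe]
        exact hp
      · rw [hmn, hkm]
        exact (Nat.modEq_iff_dvd.1 hpc.symm)
      · rw [hmn]
        exact (cond_prime (hs i) hp h2 (hndt i) hkm).2 (ht' i)
  odd := fun r x hr => by
    classical
    unfold cnt
    rw [card_eq_zero, filter_eq_empty_iff]
    intro p _
    rintro ⟨hp, h2, hnd, -, ht⟩
    obtain ⟨i0⟩ := ‹Nonempty ι›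
    have hndt : ¬ (p : ℤ) ∣ tw (a i0) (b i0) := by
      intro hd
      apply hnd i0
      rw [← Int.dvd_natAbs, ← tw_natAbs (a i0), Int.dvd_natAbs]
      exact hd
    have h3 := ht i0
    rw [(h i0).tr hp h2 (hnd i0)] at h3
    obtain ⟨k0, h4, -⟩ := exists_rep hp h2 hndt
    rw [h4] at h3
    rcases hs i0 with h5 | h5 <;> rw [h5] at h3 <;> omega

end Pool.Agent.J6H22.LT
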