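import Pool.Agent.R441.Q4.C

/-!
# The traces of Frobenius of the curves `y² = x³ - D x`

For a Gaussian prime `β` of norm `p ∤ 2 D` and a sign `s` the trace of `y² = x³ - D x` at `p` is equal to `2 s Re β` if and only if
`s (D/β)₄ β` is congruent to `1` modulo `2 + 2 i`, where `(D/β)₄` is the quartic residue symbol.
-/

set_option autoImplicit false

namespace Pool.Agent.J6H22.LT

open Finset Pool.Agent.R441.Q4

/-- the number of the solutions of `y² = x³ + a x² + b x` modulo `p` -/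
def pts (a b : ℤ) (p : ℕ) : ℕ :=
  ((range p ×ˢ range p).filter (fun xy : ℕ × ℕ =>
    (p : ℤ) ∣ (xy.2 : ℤ) ^ 2 - ((xy.1 : ℤ) ^ 3 + a * (xy.1 : ℤ) ^ 2 + b * (xy.1 : ℤ)))).card

/-- the trace of Frobenius of `y² = x³ + a x² + b x` at `p` -/
def tr (a b : ℤ) (p : ℕ) : ℤ := (p : ℤ) - pts a b p

/-- the character sum -/
noncomputable def qs (F : Type) [Field F] [Fintype F] [DecidableEq F] (a b : F) : ℤ :=
  ∑ x : F, quadraticChar F (x ^ 3 + a * x ^ 2 + b * x)

theorem tr_eq_qs {p : ℕ} [hF : Fact p.Prime] (a b : ℤ) (h2 : p ≠ 2) :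
    tr a b p = - qs (ZMod p) (a : ZMod p) (b : ZMod p) := by
  have hcard : ((pts a b p : ℕ) : ℤ) =
      ∑ x : ZMod p, (((univ : Finset (ZMod p)).filter fun y => y ^ 2 = x ^ 3 + (a : ZMod p) * x ^ 2 + (b : ZMod p) * x).card : ℤ) := by
    unfold pts
    rw [← Nat.cast_sum, ← Finset.card_sigma]
    congr 1
    refine Finset.card_bij' (fun xy _ => (⟨(xy.1 : ZMod p), (xy.2 : ZMod p)⟩ : Σ _ : ZMod p, ZMod p))
      (fun q _ => (q.1.val, q.2.val)) ?_ ?_ ?_ ?_
    · rintro ⟨x, y⟩ h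
      simp only [mem_filter, mem_product, mem_range] at h
      simp only [mem_sigma, mem_univ, mem_filter, true_and]
      obtain ⟨_, h⟩ := h
      rw [← ZMod.intCast_zmod_eq_zero_iff_dvd] at h
      push_cast at h
      linear_combination h
    · rintro ⟨x, y⟩ h
      simp only [mem_sigma, mem_univ, mem_filter, true_and] at h
      simp only [mem_filter, mem_product, mem_range]
      refine ⟨⟨ZMod.val_lt _, ZMod.val_lt _⟩, ?_⟩
      rw [← ZMod.intCast_zmod_eq_zero_iff_dvd]
      push_cast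
      simp only [ZMod.natCast_val, ZMod.cast_id', id_eq]
      linear_combination h
    · rintro ⟨x, y⟩ h
      simp only [mem_filter, mem_product, mem_range] at h
      simp only [Prod.mk.injEq]
      exact ⟨ZMod.val_cast_of_lt h.1.1, ZMod.val_cast_of_lt h.1.2⟩
    · rintro ⟨x, y⟩ h
      simp
  have hrc : ringChar (ZMod p) ≠ 2 := by
    rw [ZMod.ringChar_zmod_n]
    exact h2
  have hfib : ∀ x : ZMod p, (((univ : Finset (ZMod p)).filter fun y => y ^ 2 = x ^ 3 + (a : ZMod p) * x ^ 2 + (b : ZMod p) * x).card : ℤ) =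
      quadraticChar (ZMod p) (x ^ 3 + (a : ZMod p) * x ^ 2 + (b : ZMod p) * x) + 1 := by
    intro x
    have := quadraticChar_card_sqrts hrc (x ^ 3 + (a : ZMod p) * x ^ 2 + (b : ZMod p) * x)
    rw [← this]
    congr 2
    ext y
    simp
  unfold tr qs
  rw [hcard]
  simp_rw [hfib]
  rw [Finset.sum_add_distrib, sum_const, card_univ, ZMod.card]
  simp only [nsmul_eq_mul, mul_one]
  ring

/-- the character sums of isomorphic fields -/
theorem qs_equiv {F F' : Type} [Field F] [Fintype F] [DecidableEq F] [Field F'] [Fintype F'] [DecidableEq F']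
    (e : F ≃+* F') (a b : F) : qs F a b = qs F' (e a) (e b) := by
  have h1 : ∀ x : F, quadraticChar F' (e x) = quadraticChar F x := by
    intro x
    rw [quadraticChar_apply, quadraticChar_apply, quadraticCharFun, quadraticCharFun]
    have h2 : e x = 0 ↔ x = 0 := by simp
    have h3 : IsSquare (e x) ↔ IsSquare x := by
      constructor
      · rintro ⟨y, hy⟩
        refine ⟨e.symm y, ?_⟩
        apply e.injective
        rw [hy, map_mul]
        simp
      · rintro ⟨y, hy⟩
        exact ⟨e y, by rw [hy, map_mul]⟩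
    simp only [h2, h3]
  unfold qs
  rw [← e.toEquiv.sum_comp]
  refine sum_congr rfl fun x _ => ?_
  have : (e.toEquiv x) = e x := rfl
  rw [this, ← h1]
  congr 1
  simp

/-- the sum is zero for `p ≡ 3 (mod 4)` -/
theorem qs_three {p : ℕ} [hF : Fact p.Prime] (h3 : p % 4 = 3) (b : ZMod p) : qs (ZMod p) 0 b = 0 := by
  have h1 : qs (ZMod p) 0 b = - qs (ZMod p) 0 b := by
    conv_lhs => unfold qs
    rw [← Equiv.sum_comp (Equiv.neg (ZMod p))]
    unfold qs
    rw [← sum_neg_distrib]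
    refine sum_congr rfl fun x _ => ?_
    have e : ((Equiv.neg (ZMod p)) x) ^ 3 + 0 * ((Equiv.neg (ZMod p)) x) ^ 2 + b * ((Equiv.neg (ZMod p)) x) =
        (-1) * (x ^ 3 + 0 * x ^ 2 + b * x) := by
      simp only [Equiv.neg_apply]
      ring
    rw [e, map_mul]
    have h4 : quadraticChar (ZMod p) (-1) = -1 := by
      have h5 : ringChar (ZMod p) ≠ 2 := by
        rw [ZMod.ringChar_zmod_n]
        omega
      rw [quadraticChar_neg_one h5, ZMod.card]
      rw [ZMod.χ₄_nat_three_mod_four h3]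
    rw [h4]
    ring
  omega

/-! ### the Jacobi sum -/

variable {π : ZI} {F : Type} [Field F] [Fintype F] {ρ : ZI →+* F}

/-- the square of the quartic character is the quadratic character -/
theorem chi_sq [DecidableEq F] (h : Res π F ρ) (x : F) : h.chi x ^ 2 = ((quadraticChar F x : ℤ) : ZI) := by
  by_cases hx : x = 0
  · rw [hx, MulChar.map_zero, MulChar.map_zero]
    simp
  · have hv : Val4 (((quadraticChar F x : ℤ) : ZI)) := by
      right
      rcases quadraticChar_dichotomy hx with h1 | h1 <;> rw [h1] <;> decide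
    apply h.pp.eq_val (Val4.pow (Or.inr (h.chi_norm hx)) 2) hv
    rw [← h.ker, map_sub, map_pow, h.rho_chi, ← pow_mul, map_intCast, sub_eq_zero]
    have h2 : nrm π / 4 * 2 = nrm π / 2 := by
      have := h.pp.nrm_mod
      omega
    rw [h2, quadraticChar_eq_pow_of_char_ne_two' h.char_ne x, h.card]

theorem chi_fourth (h : Res π F ρ) {x : F} (hx : x ≠ 0) : h.chi x ^ 4 = 1 := unit_four (h.chi_norm hx)

/-- sums over squares -/
theorem sum_sq [DecidableEq F] (h : Res π F ρ) (f : F → ZI) :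
    ∑ x : F, h.chi (x ^ 2) * f (x ^ 2) = ∑ u : F, (h.chi u + h.chi u ^ 3) * f u := by
  have h1 : ∑ x : F, h.chi (x ^ 2) * f (x ^ 2) = ∑ u : F, ∑ x ∈ univ.filter (fun x : F => x ^ 2 = u), h.chi u * f u := by
    rw [← sum_fiberwise univ (fun x : F => x ^ 2)]
    refine sum_congr rfl fun u _ => sum_congr rfl fun x hx => ?_
    rw [mem_filter] at hx
    rw [hx.2]
  rw [h1]
  refine sum_congr rfl fun u _ => ?_
  rw [sum_const, nsmul_eq_mul]
  have h2 := quadraticChar_card_sqrts h.char_ne u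
  have h3 : {x : F | x ^ 2 = u}.toFinset = univ.filter (fun x : F => x ^ 2 = u) := by
    ext x
    simp
  rw [h3] at h2
  have h4 : (((univ.filter (fun x : F => x ^ 2 = u)).card : ℕ) : ZI) = h.chi u ^ 2 + 1 := by
    rw [chi_sq h]
    have h5 := congrArg (fun t : ℤ => (t : ZI)) h2
    push_cast at h5
    exact h5
  rw [h4]
  ring

theorem chi_star_sq (h : Res π F ρ) (x : F) : star (h.chi x ^ 2) = h.chi x ^ 2 := by
  by_cases hx : x = 0
  · rw [hx, MulChar.map_zero]
    simp
  · rcases unit_cases (h.chi_norm hx) with h1 | h1 | h1 | h1 <;> rw [h1] <;> decide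

/-- **the character sum of `x³ - d x`** -/
theorem qs_eq [DecidableEq F] (h : Res π F ρ) {d : F} (hd : d ≠ 0) :
    ((qs F 0 (-d) : ℤ) : ZI) = star (h.chi d) * h.J + star (star (h.chi d) * h.J) := by
  have h1 : ((qs F 0 (-d) : ℤ) : ZI) = ∑ x : F, h.chi (x ^ 2) * h.chi (x ^ 2 - d) ^ 2 := by
    unfold qs
    rw [Int.cast_sum]
    refine sum_congr rfl fun x _ => ?_
    rw [← chi_sq h]
    have e : x ^ 3 + 0 * x ^ 2 + -d * x = x * (x ^ 2 - d) := by ring
    rw [e, map_mul, map_pow, mul_pow]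
  rw [h1, sum_sq h (fun u => h.chi (u - d) ^ 2)]
  have h2 : ∀ (g : F → ZI), ∑ u : F, g u = ∑ t : F, g (d * t) := by
    intro g
    exact (Equiv.sum_comp (Equiv.mulLeft₀ d hd) g).symm
  rw [h2]
  have hd4 := chi_fourth h hd
  have hm1 : h.chi (-1) ^ 2 = 1 := by
    rw [← map_pow]
    norm_num
  have hJ : h.J = ∑ t : F, h.chi t * h.chi (1 - t) ^ 2 := h.J_def
  have hJs : star h.J = ∑ t : F, h.chi t ^ 3 * h.chi (1 - t) ^ 2 := by
    rw [hJ, star_sum]
    refine sum_congr rfl fun t _ => ?_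
    rw [star_mul, chi_star_sq, h.star_chi]
    ring
  have hsd : star (h.chi d) = h.chi d ^ 3 := h.star_chi d
  have hsd2 : star (h.chi d ^ 3) = h.chi d := by
    rw [← hsd, star_star]
  rw [star_mul, hsd, hsd2, hJ, ← hJ, hJs, hJ, mul_sum, sum_mul, ← sum_add_distrib]
  refine sum_congr rfl fun t _ => ?_
  have e : d * t - d = d * ((-1) * (1 - t)) := by ring
  rw [e, map_mul, map_mul, map_mul]
  have e1 : (h.chi d * (h.chi (-1) * h.chi (1 - t))) ^ 2 = h.chi d ^ 2 * (h.chi (-1) ^ 2) * h.chi (1 - t) ^ 2 := by ring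
  rw [e1, hm1]
  linear_combination (h.chi d * h.chi t ^ 3 * h.chi (1 - t) ^ 2) * hd4

/-- `2 + 2 i` -/
def tt : ZI := ⟨2, 2⟩

theorem unit_oi {u : ZI} (h : u.norm = 1) : (⟨1, 1⟩ : ZI) ∣ u - 1 := by
  rcases unit_cases h with h | h | h | h <;> rw [h]
  · exact ⟨0, by decide⟩
  · exact ⟨im1, by decide⟩
  · exact ⟨⟨-1, 1⟩, by decide⟩
  · exact ⟨-1, by decide⟩

/-- **the sign of the Jacobi sum** -/
theorem J_tt [DecidableEq F] (h : Res π F ρ) : tt ∣ h.J + 1 := by
  have h1 : ∑ x : F, h.chi x = 0 := MulChar.sum_eq_zero_of_ne_one h.chi_ne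
  obtain ⟨g, hg⟩ : ∃ g : F → ZI, ∀ x, g x = h.chi (1 - x) ^ 2 - (if x = 1 then 0 else 1) := ⟨_, fun _ => rfl⟩
  have h2 : h.J + 1 = ∑ x : F, h.chi x * g x := by
    rw [h.J_def]
    simp only [hg, mul_sub, Finset.sum_sub_distrib]
    have e : ∀ x : F, h.chi x * (if x = 1 then (0 : ZI) else 1) = h.chi x - if x = 1 then 1 else 0 := by
      intro x
      split_ifs with hx
      · rw [hx, MulChar.map_one]; ring
      · ring
    simp_rw [e]
    rw [Finset.sum_sub_distrib, h1, Finset.sum_ite_eq']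
    simp
  have h3 : ∀ x, (2 : ZI) ∣ g x := by
    intro x
    rw [hg]
    split_ifs with hx
    · rw [hx, sub_self, MulChar.map_zero]
      exact ⟨0, by ring⟩
    · exact unit_sq_dvd (h.chi_norm (sub_ne_zero.2 (Ne.symm hx)))
  have h4 : ∀ x, tt ∣ h.chi x * g x - g x := by
    intro x
    by_cases hx : x = 0
    · have h5 : g 0 = 0 := by
        rw [hg, sub_zero, MulChar.map_one, if_neg (by simp)]
        ring
      rw [hx, h5]
      simp
    · obtain ⟨c, hc⟩ := unit_oi (h.chi_norm hx)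
      obtain ⟨d, hd⟩ := h3 x
      refine ⟨c * d, ?_⟩
      have e1 : h.chi x * g x - g x = (h.chi x - 1) * g x := by ring
      have e : tt = ⟨1, 1⟩ * 2 := by decide
      rw [e1, hc, hd, e]
      ring
  have h5 : ∑ x : F, g x = -((nrm π : ZI) - 1) := by
    simp only [hg]
    rw [sum_sub_distrib]
    have e1 : ∑ x : F, h.chi (1 - x) ^ 2 = 0 := by
      have e2 := Equiv.sum_comp (Equiv.subLeft (1 : F)) (fun y => h.chi y ^ 2)
      simp only [Equiv.subLeft_apply] at e2
      rw [e2]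
      have e3 : ∑ x : F, (h.chi ^ 2) x = 0 := MulChar.sum_eq_zero_of_ne_one h.chi_sq_ne
      rw [← e3]
      refine sum_congr rfl fun x _ => ?_
      rw [MulChar.pow_apply' _ two_ne_zero]
    have e4 : ∑ x : F, (if x = 1 then (0 : ZI) else 1) = (nrm π : ZI) - 1 := by
      have e5 : ∀ x : F, (if x = 1 then (0 : ZI) else 1) = 1 - if x = 1 then 1 else 0 := by
        intro x
        split_ifs <;> ring
      simp_rw [e5]
      rw [sum_sub_distrib, Finset.sum_ite_eq']
      simp [h.card]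
    rw [e1, e4]
    ring
  have h6 : tt ∣ ∑ x : F, g x := by
    rw [h5]
    have hm := h.pp.nrm_mod
    obtain ⟨k, hk⟩ : ∃ k, nrm π = 4 * k + 1 := ⟨nrm π / 4, by omega⟩
    refine ⟨-(⟨1, -1⟩ * (k : ZI)), ?_⟩
    have e : tt * ⟨1, -1⟩ = 4 := by decide
    rw [hk]
    push_cast
    linear_combination (k : ZI) * e
  have h7 : h.J + 1 = ∑ x : F, (h.chi x * g x - g x) + ∑ x : F, g x := by
    rw [h2, sum_sub_distrib]
    ring
  rw [h7]
  exact dvd_add (dvd_sum fun x _ => h4 x) h6

theorem J_assoc [DecidableEq F] (h : Res π F ρ) : ∃ c : ZI, c.norm = 1 ∧ h.J = π * c := by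
  obtain ⟨c, hc⟩ := (h.ker _).1 h.rho_J
  have hn := h.J_norm
  rw [← Zsqrtd.norm_eq_mul_conj] at hn
  have hn2 : h.J.norm = π.norm := by
    rw [← nrm_cast π]
    exact_mod_cast hn
  refine ⟨c, ?_, hc⟩
  rw [hc, Zsqrtd.norm_mul] at hn2
  have := h.pp.norm_pos
  have h3 : π.norm * (c.norm - 1) = 0 := by linear_combination hn2
  rcases mul_eq_zero.1 h3 with h4 | h4
  · omega
  · omega

theorem op_of_norm {β : ZI} {p : ℕ} (hp : p.Prime) (h2 : p ≠ 2) (hβ : β.norm = p) : OP β := by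
  refine ⟨nrm_prime hp hβ, ?_⟩
  rw [hβ]
  have := hp.eq_two_or_odd
  omega

theorem not_dvd_of {β : ZI} {p : ℕ} (hp : p.Prime) (hβ : β.norm = p) {D : ℤ} (hD : ¬ (p : ℤ) ∣ D) :
    ¬ β ∣ (D : ZI) := by
  apply not_dvd_int hp (nrm_prime hp hβ) _ hD
  refine ⟨star β, ?_⟩
  rw [← Zsqrtd.norm_eq_mul_conj, hβ]
  simp

/-- the trace in terms of the primary number -/
theorem tr_eq {β : ZI} {p : ℕ} (hp : p.Prime) (h2 : p ≠ 2) (hβ : β.norm = p) {D : ℤ} (hD : ¬ (p : ℤ) ∣ D) :
    ∃ c : ZI, c.norm = 1 ∧ tt ∣ β * c - 1 ∧ tr 0 (-D) p = 2 * (star (q4 β D) * (β * c)).re := by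
  classical
  have hπ := op_of_norm hp h2 hβ
  have hF : Fact p.Prime := ⟨hp⟩
  obtain ⟨F, i1, i2, ρ, h⟩ := hπ.res
  have hcard : Fintype.card F = p := by
    rw [h.card]
    have := nrm_cast β
    rw [hβ] at this
    exact_mod_cast this
  let e : ZMod p ≃+* F := ZMod.ringEquivOfPrime F hp hcard
  obtain ⟨c, hc, hJ⟩ := J_assoc h
  refine ⟨-c, by rw [Zsqrtd.norm_neg]; exact hc, ?_, ?_⟩
  · have h3 := J_tt h
    rw [hJ] at h3
    have e1 : β * -c - 1 = -(β * c + 1) := by ring
    rw [e1]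
    exact (dvd_neg).2 h3
  · have hd : ρ (D : ZI) ≠ 0 := by
      rw [Ne, h.ker]
      exact not_dvd_of hp hβ hD
    have h3 := tr_eq_qs (p := p) 0 (-D) h2
    have h4 := qs_equiv e ((0 : ℤ) : ZMod p) ((-D : ℤ) : ZMod p)
    have e1 : e ((0 : ℤ) : ZMod p) = 0 := by simp
    have e2 : e ((-D : ℤ) : ZMod p) = - ρ (D : ZI) := by
      rw [map_intCast, map_intCast]
      push_cast
      rfl
    rw [e1, e2] at h4
    have h5 := qs_eq h hd
    rw [h.chi_map, hJ] at h5
    have h6 : ((tr 0 (-D) p : ℤ) : ZI) = star (q4 β D) * (β * -c) + star (star (q4 β D) * (β * -c)) := by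
      rw [h3, h4]
      push_cast
      rw [h5]
      have e3 : star (q4 β ↑D) * (β * -c) = -(star (q4 β ↑D) * (β * c)) := by ring
      rw [e3, star_neg]
      ring
    have h7 := congrArg Zsqrtd.re h6
    rw [Zsqrtd.re_intCast, Zsqrtd.re_add, Zsqrtd.re_star] at h7
    rw [h7]
    ring

theorem norm_lt {u : ZI} (hu : u.norm = 1) (h : tt ∣ u - 1) : u = 1 := by
  obtain ⟨z, hz⟩ := h
  have h1 := congrArg Zsqrtd.norm hz
  rw [Zsqrtd.norm_mul] at h1
  have h2 : tt.norm = 8 := by decide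
  rw [h2] at h1
  rcases unit_cases hu with h | h | h | h
  · exact h
  · exfalso
    rw [h] at h1
    have h3 : (im1 - 1).norm = 2 := by decide
    omega
  · exfalso
    rw [h] at h1
    have h3 : (-1 - 1 : ZI).norm = 4 := by decide
    omega
  · exfalso
    rw [h] at h1
    have h3 : (-im1 - 1 : ZI).norm = 2 := by decide
    omega

theorem re_im_ne {β : ZI} {p : ℕ} (hp : p.Prime) (h2 : p ≠ 2) (hβ : β.norm = p) :
    β.re ≠ 0 ∧ β.im ≠ 0 ∧ β.re ≠ β.im ∧ β.re ≠ -β.im := by
  rw [norm_def'] at hβ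
  have hsq : ∀ x : ℤ, x ^ 2 ≠ p := by
    intro x h
    have h6 : x.natAbs ^ 2 = p := by
      zify
      rw [sq_abs]
      exact h
    rw [← h6] at hp
    exact Nat.Prime.not_prime_pow le_rfl hp
  have h2' : ∀ x : ℤ, 2 * x ^ 2 ≠ p := by
    intro x h
    have h3 : 2 ∣ p := by
      have : (2 : ℤ) ∣ p := ⟨x ^ 2, h.symm⟩
      exact_mod_cast this
    exact h2 ((Nat.prime_dvd_prime_iff_eq Nat.prime_two hp).1 h3).symm
  refine ⟨?_, ?_, ?_, ?_⟩
  · intro h
    apply hsq β.im
    rw [← hβ, h]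
    ring
  · intro h
    apply hsq β.re
    rw [← hβ, h]
    ring
  · intro h
    apply h2' β.im
    rw [← hβ, h]
    ring
  · intro h
    apply h2' β.im
    rw [← hβ, h]
    ring

/-- **the criterion** -/
theorem tr_iff {β : ZI} {p : ℕ} (hp : p.Prime) (h2 : p ≠ 2) (hβ : β.norm = p) {D : ℤ} (hD : ¬ (p : ℤ) ∣ D)
    {s : ℤ} (hs : s = 1 ∨ s = -1) : tr 0 (-D) p = s * (2 * β.re) ↔ tt ∣ (s : ZI) * q4 β D * β - 1 := by
  obtain ⟨c, hc, h3, h4⟩ := tr_eq hp h2 hβ hD
  have hπ := op_of_norm hp h2 hβ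
  obtain ⟨r1, r2, r3, r4⟩ := re_im_ne hp h2 hβ
  set Qd : ZI := q4 β D with hQd
  have hQ : Qd.norm = 1 := q4_norm hπ (not_dvd_of hp hβ hD)
  have hsn : ((s : ℤ) : ZI).norm = 1 := by
    rcases hs with h | h <;> rw [h] <;> decide
  have hss : ((s : ℤ) : ZI) * (s : ZI) = 1 := by
    rcases hs with h | h <;> rw [h] <;> simp
  have hQQ : Qd * star Qd = 1 := unit_star_mul hQ
  obtain ⟨w, hw⟩ : ∃ w, w = star Qd * c := ⟨_, rfl⟩
  have hwn : w.norm = 1 := by rw [hw, Zsqrtd.norm_mul, Zsqrtd.norm_conj, hQ, hc]; rfl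
  have e1 : star Qd * (β * c) = w * β := by rw [hw]; ring
  rw [h4, e1]
  have key : w = (s : ZI) ↔ tt ∣ (s : ZI) * Qd * β - 1 := by
    constructor
    · intro h
      have e2 : (s : ZI) * Qd * β = β * c := by
        rw [← h, hw]
        linear_combination (c * β) * hQQ
      rw [e2]
      exact h3
    · intro h
      obtain ⟨a, ha⟩ := h3
      obtain ⟨b, hb⟩ := h
      -- `u`
      set u : ZI := (s : ZI) * w with hu
      have hun : u.norm = 1 := by rw [hu, Zsqrtd.norm_mul, hsn, hwn]; rfl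
      have e2 : u * ((s : ZI) * Qd * β) = β * c := by
        rw [hu, hw]
        linear_combination (Qd * star Qd * c * β) * hss + (c * β) * hQQ
      have e3 : u - 1 = tt * (a - b - (u - 1) * b) := by
        linear_combination e2 + ha - u * hb
      have e4 := norm_lt hun ⟨_, e3⟩
      have e5 : w = (s : ZI) * u := by
        rw [hu]
        linear_combination -w * hss
      rw [e5, e4, mul_one]
  rw [← key]
  constructor
  · intro h
    rcases unit_cases hwn with h5 | h5 | h5 | h5 <;> rcases hs with h6 | h6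
    · rw [h5, h6]; simp
    · exfalso
      rw [h5, h6, one_mul] at h
      omega
    · exfalso
      rw [h5, h6] at h
      simp only [im1, Zsqrtd.re_mul] at h
      omega
    · exfalso
      rw [h5, h6] at h
      simp only [im1, Zsqrtd.re_mul] at h
      omega
    · exfalso
      rw [h5, h6, neg_one_mul, Zsqrtd.re_neg] at h
      omega
    · rw [h5, h6]; simp
    · exfalso
      rw [h5, h6] at h
      simp only [im1, Zsqrtd.re_mul, Zsqrtd.re_neg, Zsqrtd.im_neg] at h
      omega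
    · exfalso
      rw [h5, h6] at h
      simp only [im1, Zsqrtd.re_mul, Zsqrtd.re_neg, Zsqrtd.im_neg] at h
      omega
  · intro h
    rw [h]
    rcases hs with h6 | h6 <;> rw [h6]
    · simp
    · simp

/-- the primes which are three modulo four -/
theorem tr_three {p : ℕ} (hp : p.Prime) (h3 : p % 4 = 3) (b : ℤ) : tr 0 b p = 0 := by
  have : Fact p.Prime := ⟨hp⟩
  rw [tr_eq_qs 0 b (by omega), Int.cast_zero, qs_three h3, neg_zero]

theorem exists_rep {p : ℕ} (hp : p.Prime) (h2 : p ≠ 2) {D : ℤ} (hD : ¬ (p : ℤ) ∣ D) :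
    (∃ k : ℤ, tr 0 (-D) p = 2 * k ∧ (k ≠ 0 → ∃ m : ℤ, 1 ≤ m ∧ k ^ 2 + m ^ 2 = p)) := by
  rcases (show p % 4 = 1 ∨ p % 4 = 3 by
    rcases hp.eq_two_or_odd with h | h
    · exact absurd h h2
    · omega) with h1 | h3
  · obtain ⟨β, hπ, -, hβ⟩ := split_exists hp h1
    obtain ⟨c, hc, -, h4⟩ := tr_eq hp h2 hβ hD
    refine ⟨_, h4, fun _ => ?_⟩
    set α := star (q4 β (D : ZI)) * (β * c) with hα
    have hn : α.norm = p := by
      rw [hα, Zsqrtd.norm_mul, Zsqrtd.norm_mul, Zsqrtd.norm_conj, q4_norm hπ (not_dvd_of hp hβ hD), hc, hβ]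
      ring
    obtain ⟨-, r2, -, -⟩ := re_im_ne hp h2 hn
    refine ⟨|α.im|, ?_, ?_⟩
    · have := abs_pos.2 r2
      omega
    · rw [sq_abs, ← norm_def']
      exact hn
  · exact ⟨0, by rw [tr_three hp h3, mul_zero], fun h => absurd rfl h⟩

/-! ### the curves with `j = 287496` -/

theorem qs_isog {F : Type} [Field F] [Fintype F] [DecidableEq F] (hF : ringChar F ≠ 2) {a b : F} (hb : b ≠ 0) :
    qs F a b = qs F (-2 * a) (a ^ 2 - 4 * b) := by
  have h2 : (2 : F) ≠ 0 := Ring.two_ne_zero hF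
  have h0 : ∑ t : F, quadraticChar F (t + a) = 0 := by
    have e1 := Equiv.sum_comp (Equiv.addRight a) (fun t => quadraticChar F t)
    simp only [Equiv.coe_addRight] at e1
    rw [e1]
    exact quadraticChar_sum_zero hF
  have h1 : qs F a b = ∑ x ∈ univ.filter (fun x : F => x ≠ 0), quadraticChar F (x + b / x + a) := by
    unfold qs
    rw [sum_filter]
    refine sum_congr rfl fun x _ => ?_
    split_ifs with hx
    · have e : x ^ 3 + a * x ^ 2 + b * x = x ^ 2 * (x + b / x + a) := by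
        field_simp
        ring
      rw [e, map_mul, quadraticChar_sq_one' hx, one_mul]
    · rw [not_not] at hx
      rw [hx]
      simp
  have h3 : ∑ x ∈ univ.filter (fun x : F => x ≠ 0), quadraticChar F (x + b / x + a) =
      ∑ t : F, (quadraticChar F (t ^ 2 - 4 * b) + 1) * quadraticChar F (t + a) := by
    rw [← sum_fiberwise (univ.filter (fun x : F => x ≠ 0)) (fun x : F => x + b / x)]
    refine sum_congr rfl fun t _ => ?_
    have e1 : ∑ x ∈ (univ.filter (fun x : F => x ≠ 0)).filter (fun x : F => x + b / x = t),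
        quadraticChar F (x + b / x + a) = ∑ x ∈ (univ.filter (fun x : F => x ≠ 0)).filter (fun x : F => x + b / x = t),
        quadraticChar F (t + a) := by
      refine sum_congr rfl fun x hx => ?_
      rw [mem_filter] at hx
      rw [hx.2]
    rw [e1, sum_const, nsmul_eq_mul]
    congr 1
    rw [← quadraticChar_card_sqrts hF]
    congr 1
    apply card_bij (fun x _ => 2 * x - t)
    · intro x hx
      simp only [mem_filter, mem_univ, true_and] at hx
      obtain ⟨hx0, hx1⟩ := hx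
      simp only [Set.mem_toFinset, Set.mem_ofPred_eq]
      rw [← hx1]
      field_simp
      ring
    · intro x _ y _ h
      have : 2 * x = 2 * y := by linear_combination h
      exact mul_left_cancel₀ h2 this
    · intro y hy
      simp only [Set.mem_toFinset, Set.mem_ofPred_eq] at hy
      have hxe : ((t + y) / 2) * ((t - y) / 2) = b := by
        field_simp
        linear_combination -hy
      have hx0 : (t + y) / 2 ≠ 0 := by
        intro h
        rw [h, zero_mul] at hxe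
        exact hb hxe.symm
      refine ⟨(t + y) / 2, ?_, ?_⟩
      · simp only [mem_filter, mem_univ, true_and]
        refine ⟨hx0, ?_⟩
        rw [← hxe, mul_div_cancel_left₀ _ hx0]
        field_simp
        ring
      · field_simp
        ring
  have h4 : ∑ t : F, (quadraticChar F (t ^ 2 - 4 * b) + 1) * quadraticChar F (t + a) =
      ∑ t : F, quadraticChar F ((t ^ 2 - 4 * b) * (t + a)) := by
    have : ∀ t : F, (quadraticChar F (t ^ 2 - 4 * b) + 1) * quadraticChar F (t + a) =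
        quadraticChar F ((t ^ 2 - 4 * b) * (t + a)) + quadraticChar F (t + a) := by
      intro t
      rw [map_mul]
      ring
    simp_rw [this]
    rw [sum_add_distrib, h0, add_zero]
  rw [h1, h3, h4]
  unfold qs
  rw [← Equiv.sum_comp (Equiv.subRight a)]
  refine sum_congr rfl fun s _ => ?_
  congr 1
  simp only [Equiv.subRight_apply]
  ring

theorem qs_287496 {F : Type} [Field F] [Fintype F] [DecidableEq F] (hF : ringChar F ≠ 2) {D : F} (hD : D ≠ 0) :
    qs F (-6 * D) (D ^ 2) = qs F 0 (-D ^ 2) := by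
  have h2 : (2 : F) ≠ 0 := Ring.two_ne_zero hF
  have h1 := qs_isog hF (a := 3 * D) (b := 2 * D ^ 2) (by
    have : D ^ 2 ≠ 0 := pow_ne_zero 2 hD
    exact mul_ne_zero h2 this)
  have e1 : -2 * (3 * D) = -6 * D := by ring
  have e2 : (3 * D) ^ 2 - 4 * (2 * D ^ 2) = D ^ 2 := by ring
  rw [e1, e2] at h1
  rw [← h1]
  unfold qs
  rw [← Equiv.sum_comp (Equiv.addRight D) (fun x => quadraticChar F (x ^ 3 + 0 * x ^ 2 + -D ^ 2 * x))]
  refine sum_congr rfl fun s _ => ?_
  congr 1
  simp only [Equiv.coe_addRight]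
  ring

theorem tr_287496 {p : ℕ} (hp : p.Prime) (h2 : p ≠ 2) {D : ℤ} (hD : ¬ (p : ℤ) ∣ D) :
    tr (-6 * D) (D ^ 2) p = tr 0 (-D ^ 2) p := by
  have : Fact p.Prime := ⟨hp⟩
  have hF : ringChar (ZMod p) ≠ 2 := by
    rw [ZMod.ringChar_zmod_n]
    exact h2
  have hD' : (D : ZMod p) ≠ 0 := by
    rw [Ne, ZMod.intCast_zmod_eq_zero_iff_dvd]
    exact hD
  have h3 := qs_287496 hF hD'
  rw [tr_eq_qs _ _ h2, tr_eq_qs _ _ h2]
  push_cast
  rw [h3]

end Pool.Agent.J6H22.LT
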