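import Pool.Agent.R441.Q4.F
import Pool.Agent.J6H22.LT.Trace

/-!
# The condition of `Trace` is periodic

The condition `2 + 2 i ∣ s (D/β)₄ β - 1` for `β = l + m i` depends on the classes of `l` and `m` modulo `8 D` only
(quartic reciprocity and the supplementary laws).
-/

set_option autoImplicit false

namespace Pool.Agent.J6H22.LT

open Pool.Agent.R441.Q4

theorem cop_of_Q {β : ZI} (h : Od β) {a : ZI} : Q β a ≠ 0 → IsCoprime β a := by
  induction β, h using Od.induction with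
  | hu u hu =>
    intro _
    refine ⟨star u, 0, ?_⟩
    rw [zero_mul, add_zero, mul_comm]
    exact unit_star_mul hu
  | hp π β hπ hβ ih =>
    intro h0
    rw [Q_mul_left hπ.ne hβ.ne, Q_prime hπ.pr] at h0
    have h1 : q4 π a ≠ 0 := left_ne_zero_of_mul h0
    have h2 : Q β a ≠ 0 := right_ne_zero_of_mul h0
    have h3 : ¬ π ∣ a := fun h => h1 (q4_zero h)
    exact IsCoprime.mul_left ((hπ.pr.coprime_iff_not_dvd).2 h3) (ih h2)

theorem re_im_of {β β' : ZI} {n : ℤ} (h : (n : ZI) ∣ β - β') :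
    ∃ z : ZI, β.re = β'.re + n * z.re ∧ β.im = β'.im + n * z.im := by
  obtain ⟨z, hz⟩ := h
  refine ⟨z, ?_, ?_⟩
  · have := congrArg Zsqrtd.re hz
    simp only [Zsqrtd.re_sub, Zsqrtd.re_mul, Zsqrtd.im_mul, Zsqrtd.re_intCast, Zsqrtd.im_intCast] at this
    linarith
  · have := congrArg Zsqrtd.im hz
    simp only [Zsqrtd.im_sub, Zsqrtd.re_mul, Zsqrtd.im_mul, Zsqrtd.re_intCast, Zsqrtd.im_intCast] at this
    linarith

theorem nrm16 {β β' : ZI} (h : ((8 : ℤ) : ZI) ∣ β - β') : nrm β % 16 = nrm β' % 16 := by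
  obtain ⟨z, h1, h2⟩ := re_im_of h
  have h3 : ((nrm β : ℕ) : ℤ) % 16 = ((nrm β' : ℕ) : ℤ) % 16 := by
    rw [nrm_cast, nrm_cast, norm_def', norm_def', h1, h2]
    have e : (β'.re + 8 * z.re) ^ 2 + (β'.im + 8 * z.im) ^ 2 = (β'.re ^ 2 + β'.im ^ 2) +
      16 * (β'.re * z.re + 4 * z.re ^ 2 + β'.im * z.im + 4 * z.im ^ 2) := by ring
    rw [e]
    omega
  omega

theorem per_unit {β β' : ZI} (h : Od β) (h' : Od β') (hd : ((8 : ℤ) : ZI) ∣ β - β') {u : ZI} (hu : u.norm = 1) :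
    Q β u = Q β' u := by
  rw [Q_unit h hu, Q_unit h' hu]
  apply pow_unit_congr hu
  have h1 := nrm16 hd
  omega

theorem per_two {β β' : ZI} (h : Ev β) (h' : Ev β') (hd : ((8 : ℤ) : ZI) ∣ β - β') : Q β 2 = Q β' 2 := by
  have e : (2 : ZI) = -im1 * oi ^ 2 := by decide
  rw [e, Q_mul h.od, Q_mul h'.od, Q_pow h.od, Q_pow h'.od, sq_oi h, sq_oi h', per_unit h.od h'.od hd (by decide)]
  congr 2
  obtain ⟨z, h1, h2⟩ := re_im_of hd
  unfold e8
  have h3 : (β.re + β.im) % 8 = (β'.re + β'.im) % 8 := by omega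
  rw [h3]

theorem per_odd {n : ℤ} (hn : n % 2 = 1) {β β' : ZI} (h : Ev β) (h' : Ev β') (hc : IsCoprime (n : ZI) β)
    (hc' : IsCoprime (n : ZI) β') (hd : ((8 : ℤ) : ZI) ∣ β - β') (hdn : (n : ZI) ∣ β - β') : Q β n = Q β' n := by
  rw [rec_rat' hn h hc, rec_rat' hn h' hc', Q_per (od_int.2 hn) hdn]
  congr 1
  obtain ⟨z, h1, h2⟩ := re_im_of hd
  have h3 : (β.im % 4 = 0) ↔ (β'.im % 4 = 0) := by omega
  simp only [h3]

theorem two_split {D : ℤ} (hD : D ≠ 0) : ∃ (e : ℕ) (n : ℤ), n % 2 = 1 ∧ D = 2 ^ e * n := by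
  obtain ⟨k, m, hm, h⟩ := Nat.exists_eq_two_pow_mul_odd (n := D.natAbs) (by omega)
  have hm' : m % 2 = 1 := Nat.odd_iff.1 hm
  rcases Int.natAbs_eq D with h1 | h1
  · refine ⟨k, m, by omega, ?_⟩
    rw [h1, h]
    push_cast
    ring
  · refine ⟨k, -m, by omega, ?_⟩
    rw [h1, h]
    push_cast
    ring

theorem cop_per {D : ℤ} {β β' : ZI} (hc : IsCoprime (D : ZI) β) (hd : (D : ZI) ∣ β - β') : IsCoprime (D : ZI) β' := by
  obtain ⟨z, hz⟩ := hd
  have e : β' = β + (D : ZI) * (-z) := by linear_combination -hz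
  rw [e]
  exact IsCoprime.add_mul_left_right hc _

theorem per_ev {D : ℤ} (hD : D ≠ 0) {β β' : ZI} (h : Ev β) (h' : Ev β') (hc : IsCoprime (D : ZI) β)
    (hd : ((8 * D : ℤ) : ZI) ∣ β - β') : Q β D = Q β' D := by
  obtain ⟨e, n, hn, rfl⟩ := two_split hD
  have hd8 : ((8 : ℤ) : ZI) ∣ β - β' := by
    refine dvd_trans ?_ hd
    exact ⟨((2 ^ e * n : ℤ) : ZI), by push_cast; ring⟩
  have hdn : (n : ZI) ∣ β - β' := by
    refine dvd_trans ?_ hd
    exact ⟨((8 * 2 ^ e : ℤ) : ZI), by push_cast; ring⟩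
  have hcn : IsCoprime (n : ZI) β := by
    have e1 : ((2 ^ e * n : ℤ) : ZI) = ((2 ^ e : ℤ) : ZI) * (n : ZI) := by push_cast; ring
    rw [e1] at hc
    exact hc.of_mul_left_right
  have e1 : ((2 ^ e * n : ℤ) : ZI) = (2 : ZI) ^ e * (n : ZI) := by push_cast; ring
  rw [e1, Q_mul h.od, Q_mul h'.od, Q_pow h.od, Q_pow h'.od, per_two h h' hd8,
    per_odd hn h h' hcn (cop_per hcn hdn) hd8 hdn]

theorem ev_congr {β β' : ZI} (h : Ev β) (hd : ((8 : ℤ) : ZI) ∣ β - β') : Ev β' := by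
  obtain ⟨z, h1, h2⟩ := re_im_of hd
  have h3 := h.re
  have h4 := h.im
  exact ev_of (by omega) (by omega)

theorem Q_period {D : ℤ} (hD : D ≠ 0) {β β' : ZI} (h : Od β) (hc : IsCoprime (D : ZI) β)
    (hd : ((8 * D : ℤ) : ZI) ∣ β - β') : Q β D = Q β' D := by
  obtain ⟨w, hw, he⟩ := exists_ev h
  have hwu : IsUnit w := isUnit_iff_norm.2 hw
  have hd8 : ((8 * D : ℤ) : ZI) ∣ w * β - w * β' := by
    rw [← mul_sub]
    exact hd.mul_left w
  have h8 : ((8 : ℤ) : ZI) ∣ w * β - w * β' := by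
    refine dvd_trans ?_ hd8
    exact ⟨(D : ZI), by push_cast; ring⟩
  have he' : Ev (w * β') := ev_congr he h8
  have hcw : IsCoprime (D : ZI) (w * β) := by
    refine IsCoprime.mul_right ?_ hc
    refine ⟨0, star w, ?_⟩
    rw [zero_mul, zero_add, mul_comm]
    exact unit_star_mul hw
  have h1 := per_ev hD he he' hcw hd8
  rw [Q_assoc (associated_unit_mul_left β w hwu), Q_assoc (associated_unit_mul_left β' w hwu)] at h1
  exact h1

/-! ### the condition -/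

/-- the condition for `β = l + m i` -/
def cond (D s l m : ℤ) : Prop := tt ∣ (s : ZI) * Q ⟨l, m⟩ (D : ZI) * ⟨l, m⟩ - 1

theorem tt_not_unit : ¬ tt ∣ (1 : ZI) := by
  intro h
  obtain ⟨z, hz⟩ := h
  have h1 := congrArg Zsqrtd.norm hz
  rw [Zsqrtd.norm_mul] at h1
  have h2 : tt.norm = 8 := by decide
  have h3 : (1 : ZI).norm = 1 := by decide
  rw [h2, h3] at h1
  omega

theorem cond_od {D s l m : ℤ} (h : cond D s l m) : Od ⟨l, m⟩ := by
  obtain ⟨z, hz⟩ := h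
  have h1 : (s : ZI) * Q ⟨l, m⟩ (D : ZI) * ⟨l, m⟩ = 1 + tt * z := by linear_combination hz
  have h2 := congrArg Zsqrtd.norm h1
  rw [Zsqrtd.norm_mul] at h2
  have h3 : (1 + tt * z).norm % 2 = 1 := by
    rw [norm_def']
    simp only [tt, Zsqrtd.re_add, Zsqrtd.im_add, Zsqrtd.re_mul, Zsqrtd.im_mul, Zsqrtd.re_one, Zsqrtd.im_one]
    ring_nf
    omega
  rw [← h2, Int.mul_emod] at h3
  unfold Od
  rcases Int.emod_two_eq_zero_or_one (Zsqrtd.norm (⟨l, m⟩ : ZI)) with h4 | h4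
  · rw [h4] at h3
    simp at h3
  · exact h4

theorem cond_Q {D s l m : ℤ} (h : cond D s l m) : Q ⟨l, m⟩ (D : ZI) ≠ 0 := by
  intro h0
  unfold cond at h
  rw [h0, mul_zero, zero_mul, zero_sub] at h
  exact tt_not_unit ((dvd_neg).1 h)

theorem cond_cop {D s l m : ℤ} (h : cond D s l m) : IsCoprime (D : ZI) ⟨l, m⟩ :=
  (cop_of_Q (cond_od h) (cond_Q h)).symm

theorem cop_int {a b : ℤ} (h : IsCoprime (a : ZI) (b : ZI)) : IsCoprime a b := by
  obtain ⟨u, v, huv⟩ := h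
  refine ⟨u.re, v.re, ?_⟩
  have := congrArg Zsqrtd.re huv
  simp only [Zsqrtd.re_add, Zsqrtd.re_mul, Zsqrtd.re_intCast, Zsqrtd.im_intCast, Zsqrtd.re_one] at this
  linarith

theorem cond_cop_int {D s l m : ℤ} (h : cond D s l m) : IsCoprime (l ^ 2 + m ^ 2) (8 * D) := by
  have h1 := cond_cop h
  have h2 : IsCoprime (D : ZI) (star (⟨l, m⟩ : ZI)) := by
    obtain ⟨u, v, huv⟩ := h1
    refine ⟨star u, star v, ?_⟩
    have := congrArg star huv
    rw [star_add, star_mul, star_mul, star_one, star_intCast] at this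
    linear_combination this
  have h3 := h1.mul_right h2
  rw [← Zsqrtd.norm_eq_mul_conj] at h3
  have h4 := cop_int h3
  have h5 : (⟨l, m⟩ : ZI).norm = l ^ 2 + m ^ 2 := by rw [norm_def']
  rw [h5] at h4
  have h6 : (l ^ 2 + m ^ 2) % 2 = 1 := by
    have := cond_od h
    unfold Od at this
    rwa [h5] at this
  have h7 : IsCoprime (l ^ 2 + m ^ 2) (2 : ℤ) := ⟨1, -((l ^ 2 + m ^ 2) / 2), by omega⟩
  have h8 : IsCoprime (l ^ 2 + m ^ 2) (8 : ℤ) := by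
    have : (8 : ℤ) = 2 * 2 * 2 := by norm_num
    rw [this]
    exact (h7.mul_right h7).mul_right h7
  exact h8.mul_right h4.symm

theorem cond_per {D s : ℤ} (hD : D ≠ 0) {l m l' m' : ℤ} (hl : 8 * D ∣ l - l') (hm : 8 * D ∣ m - m')
    (h : cond D s l m) : cond D s l' m' := by
  have hd : ((8 * D : ℤ) : ZI) ∣ (⟨l, m⟩ : ZI) - ⟨l', m'⟩ := by
    obtain ⟨u, hu⟩ := hl
    obtain ⟨v, hv⟩ := hm
    refine ⟨⟨u, v⟩, ?_⟩
    ext
    · simp only [Zsqrtd.re_sub, Zsqrtd.re_mul, Zsqrtd.re_intCast, Zsqrtd.im_intCast]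
      rw [hu]
      ring
    · simp only [Zsqrtd.im_sub, Zsqrtd.im_mul, Zsqrtd.re_intCast, Zsqrtd.im_intCast]
      rw [hv]
      ring
  have h1 := Q_period hD (cond_od h) (cond_cop h) hd
  unfold cond at h ⊢
  rw [← h1]
  have e : (s : ZI) * Q ⟨l, m⟩ (D : ZI) * ⟨l', m'⟩ - 1 = ((s : ZI) * Q ⟨l, m⟩ (D : ZI) * ⟨l, m⟩ - 1) -
      (s : ZI) * Q ⟨l, m⟩ (D : ZI) * ((⟨l, m⟩ : ZI) - ⟨l', m'⟩) := by ring
  rw [e]
  refine dvd_sub h (Dvd.dvd.mul_left (dvd_trans ?_ hd) _)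
  refine ⟨⟨2, -2⟩ * (D : ZI), ?_⟩
  have e2 : tt * ⟨2, -2⟩ = 8 := by decide
  push_cast
  linear_combination -(D : ZI) * e2

theorem cond_neg {D s l m : ℤ} (h : cond D s l m) : cond D s l (-m) := by
  have hod := cond_od h
  unfold cond at h ⊢
  have e1 : (⟨l, -m⟩ : ZI) = star (⟨l, m⟩ : ZI) := by
    ext
    · rw [Zsqrtd.re_star]
    · rw [Zsqrtd.im_star]
  have e2 := Q_star hod (D : ZI)
  rw [star_intCast] at e2
  rw [e1, e2]
  have h1 := star_dvd h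
  rw [star_sub, star_mul, star_mul, star_intCast, star_one] at h1
  have e3 : (s : ZI) * star (Q ⟨l, m⟩ (D : ZI)) * star (⟨l, m⟩ : ZI) - 1 =
      star (⟨l, m⟩ : ZI) * (star (Q ⟨l, m⟩ (D : ZI)) * (s : ZI)) - 1 := by ring
  rw [e3]
  refine dvd_trans ?_ h1
  exact ⟨-im1, by decide⟩

end Pool.Agent.J6H22.LT
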